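import Pool.Agent.H546R2.SM.B7
import Pool.Agent.H546R2.SL.A2b

set_option autoImplicit false
set_option linter.unusedSectionVars false

open MvPolynomial Finset

namespace Pool.Agent.H546R2.SM

open Pool.Agent.H546R2.SL (perN aeval_pderiv exists_zeta phi lin Good Nm good_W₀ degree_bound
  NSLP gradient_good' phi_sum phi_C_mul eps)

variable {K : Type*} [Field K]

lemma zeta_C {ι : Type*} {w : ℕ} (ζ : Fin w → K)
    (hζ : ∀ t ≤ w, ∑ V : Finset (Fin w), (if V.card = t then ∏ c ∈ V, ζ c else 0) =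
      if t = 0 then 1 else if t = w then -1 else 0) :
    ∀ t ≤ w, ∑ V : Finset (Fin w), (if V.card = t then ∏ c ∈ V, C (σ := ι) (ζ c) else 0) =
      if t = 0 then 1 else if t = w then -1 else 0 := by
  intro t ht
  have h1 := congrArg (C (σ := ι)) (hζ t ht)
  rw [map_sum] at h1
  have h2 : ∀ V : Finset (Fin w), (if V.card = t then ∏ c ∈ V, C (σ := ι) (ζ c) else 0) =
      C (σ := ι) (if V.card = t then ∏ c ∈ V, ζ c else 0) := by
    intro V
    split_ifs
    · rw [map_prod]
    · rw [map_zero]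
  simp_rw [h2]
  rw [h1]
  split_ifs <;> simp

lemma cst_C (q h m C₀ u v p : ℕ) {ι : Type*} :
    cst (MvPolynomial ι K) q h m C₀ u v p (-1) (-1) (-1) (-1) =
      C (cst K q h m C₀ u v p (-1) (-1) (-1) (-1)) := by
  unfold cst
  simp

lemma cst_ne_zero [CharZero K] (q h m C₀ u v p : ℕ) :
    cst K q h m C₀ u v p (-1) (-1) (-1) (-1) ≠ 0 := by
  have hf : ∀ n : ℕ, ((n.factorial : K)) ≠ 0 := fun n => by exact_mod_cast (Nat.factorial_pos n).ne'
  have h1 : (-1 : K) ≠ 0 := by norm_num
  unfold cst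
  simp only [ne_eq, mul_eq_zero, pow_eq_zero_iff', hf, h1, false_and, or_self, not_false_eq_true]

section

variable (K) (q h k p : ℕ) (t : K)

/-- weights of the absorbing columns -/
noncomputable def wR (g : ℕ) (r : ℕ) : K := (t ^ (2 * g * r))⁻¹

/-- weights of the absorbing rows -/
noncomputable def wC (g : ℕ) (c : ℕ) : K := t ^ (2 * g * c)

/-- weights of the link entries -/
noncomputable def wX (g : ℕ) : K :=
  (t ^ (g ^ 2)) ^ k * ((∏ r : Fin (2 * k), wR K t g r) * (∏ c : Fin (2 * k + h), wC K t g c))⁻¹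

/-- the variable entries -/
noncomputable def Aent (b b' : Fin q) (r : Fin (2 * k)) (c : Fin (2 * k + h)) :
    MvPolynomial (Idx q h k) K :=
  C (t ^ ex c r 0) * zent K q h k (2 * k + h) b b' r c

/-- the final matrix with general variable entries -/
noncomputable def FM (zC : Fin (2 * k + h) → K) (zU : Fin (k + 1) → K) (zm : Fin (2 * k) → K)
    (zV : Fin (k + h + 1) → K)
    (A : Fin q → Fin q → Fin (2 * k) → Fin (2 * k + h) → MvPolynomial (Idx q h k) K) :
    FR q h (2 * k) (2 * k + h) k (k + h) p → FC q h (2 * k) (2 * k + h) k (k + h) p →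
      MvPolynomial (Idx q h k) K :=
  fin k (k + h) p (fun c => C (zC c)) (fun c => C (zU c)) (fun c => C (zm c)) (fun c => C (zV c))
    A (fun g r => C (wR K t g r)) (fun g c => C (wC K t g c)) (fun g => C (wX K h k t g))

end

section

variable {q h k p : ℕ} {t : K}

lemma weight_identity (ht : t ≠ 0) (g c r : ℕ) :
    t ^ (g ^ 2) * t ^ ex c r 0 = wR K t g r * (wC K t g c * t ^ ex c r g) := by
  unfold wR wC
  have h1 : t ^ (2 * g * r) ≠ 0 := pow_ne_zero _ ht
  rw [← mul_right_inj' h1, ← mul_assoc (t ^ (2 * g * r)) (t ^ (2 * g * r))⁻¹,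
    mul_inv_cancel₀ h1, one_mul, ← pow_add, ← pow_add, ← pow_add]
  congr 1
  have := ex_identity c r g
  omega

lemma wR_ne (ht : t ≠ 0) (g r : ℕ) : wR K t g r ≠ 0 := inv_ne_zero (pow_ne_zero _ ht)

lemma wC_ne (ht : t ≠ 0) (g c : ℕ) : wC K t g c ≠ 0 := pow_ne_zero _ ht

/-- the shift of one entry after rescaling -/
noncomputable def mu (K : Type*) [Field K] (t : K) (g c r : ℕ) : K :=
  t ^ (g ^ 2) * (wR K t g r * wC K t g c)⁻¹

lemma mu_spec (ht : t ≠ 0) (g c r : ℕ) : t ^ ex c r 0 * mu K t g c r = t ^ ex c r g := by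
  unfold mu
  have h1 : wR K t g r * wC K t g c ≠ 0 := mul_ne_zero (wR_ne ht g r) (wC_ne ht g c)
  have h2 := weight_identity ht g c r
  calc t ^ ex c r 0 * (t ^ g ^ 2 * (wR K t g r * wC K t g c)⁻¹) =
      (t ^ g ^ 2 * t ^ ex c r 0) * (wR K t g r * wC K t g c)⁻¹ := by ring
    _ = t ^ ex c r g * ((wR K t g r * wC K t g c) * (wR K t g r * wC K t g c)⁻¹) := by
      rw [h2]; ring
    _ = t ^ ex c r g := by rw [mul_inv_cancel₀ h1, mul_one]

/-- value of a link-weighted functional -/
lemma wX_Phi (ht : t ≠ 0) (g : ℕ) (a b : Fin (2 * k) → Fin (2 * k + h) →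
    MvPolynomial (Idx q h k) K)
    (hab : ∀ r c, C (t ^ (g ^ 2)) * a r c = C (wR K t g r) * (C (wC K t g c) * b r c)) :
    C (wX K h k t g) * Phi k a (fun r => C (wR K t g r)) (fun c => C (wC K t g c)) =
      phi k (∏ r, (1 + lin (b r))) := by
  have h1 := Phi_scale (k := k) a b (fun r => C (wR K t g r)) (fun c => C (wC K t g c))
    (C (t ^ (g ^ 2))) hab
  have h2 : (∏ r : Fin (2 * k), wR K t g r) * (∏ c : Fin (2 * k + h), wC K t g c) ≠ 0 := by
    apply mul_ne_zero
    · exact Finset.prod_ne_zero_iff.mpr fun r _ => wR_ne ht g r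
    · exact Finset.prod_ne_zero_iff.mpr fun c _ => wC_ne ht g c
  unfold wX
  rw [map_mul, map_pow, mul_comm (C (t ^ g ^ 2) ^ k), mul_assoc, h1, ← map_prod, ← map_prod,
    ← mul_assoc, ← map_mul, ← map_mul, inv_mul_cancel₀ h2, map_one, one_mul]

/-- adding `1` to one variable entry -/
theorem FM_diff [CharZero K] (ht : t ≠ 0) (hk : 0 < k) (zC : Fin (2 * k + h) → K)
    (zU : Fin (k + 1) → K)
    (zm : Fin (2 * k) → K) (zV : Fin (k + h + 1) → K)
    (hzC : ∀ t ≤ 2 * k + h, ∑ V : Finset (Fin (2 * k + h)),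
      (if V.card = t then ∏ c ∈ V, zC c else 0) = if t = 0 then 1 else if t = 2 * k + h then -1
        else 0)
    (hzU : ∀ t ≤ k + 1, ∑ V : Finset (Fin (k + 1)), (if V.card = t then ∏ c ∈ V, zU c else 0) =
      if t = 0 then 1 else if t = k + 1 then -1 else 0)
    (hzm : ∀ t ≤ 2 * k, ∑ V : Finset (Fin (2 * k)), (if V.card = t then ∏ c ∈ V, zm c else 0) =
      if t = 0 then 1 else if t = 2 * k then -1 else 0)
    (hzV : ∀ t ≤ k + h + 1, ∑ V : Finset (Fin (k + h + 1)),
      (if V.card = t then ∏ c ∈ V, zV c else 0) = if t = 0 then 1 else if t = k + h + 1 then -1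
        else 0)
    (b₀ b₀' : Fin q) (r₀ : Fin (2 * k)) (c₀ : Fin (2 * k + h)) :
    C (t ^ ex c₀ r₀ 0) * (per (FM K q h k p t zC zU zm zV (fun b b' r c => Aent K q h k t b b' r c +
        if b' = b₀' ∧ c = c₀ then (if b = b₀ ∧ r = r₀ then 1 else 0) else 0)) -
      per (FM K q h k p t zC zU zm zV (Aent K q h k t))) =
      C (cst K q h (2 * k) (2 * k + h) k (k + h) p (-1) (-1) (-1) (-1)) *
        Yf K q h k (2 * k + h) t (b₀, b₀', r₀, c₀) := by
  classical
  unfold FM
  rw [per_fin (k := k) _ _ _ _ (-1) (-1) (-1) (-1) (zeta_C zC hzC) (zeta_C zU hzU) (zeta_C zm hzm)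
      (zeta_C zV hzV) hk (by ring) (by ring),
    per_fin (k := k) _ _ _ _ (-1) (-1) (-1) (-1) (zeta_C zC hzC) (zeta_C zU hzU) (zeta_C zm hzm)
      (zeta_C zV hzV) hk (by ring) (by ring), cst_C, ← mul_sub, mul_left_comm]
  congr 1
  rw [← Finset.sum_sub_distrib]
  -- only the block `(b₀, b₀')` changes
  have hother : ∀ b b' : Fin q, ¬ (b = b₀ ∧ b' = b₀') →
      (fun r c => Aent K q h k t b b' r c +
        if b' = b₀' ∧ c = c₀ then (if b = b₀ ∧ r = r₀ then 1 else 0) else 0) =
      Aent K q h k t b b' := by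
    intro b b' hbb
    funext r c
    by_cases h1 : b' = b₀' ∧ c = c₀
    · rw [if_pos h1, if_neg (fun hh => hbb ⟨hh.1, h1.1⟩), add_zero]
    · rw [if_neg h1, add_zero]
  rw [Finset.sum_eq_single b₀]
  · rw [← Finset.sum_sub_distrib, Finset.sum_eq_single b₀']
    · rw [← Finset.sum_sub_distrib]
      unfold Yf
      rw [Finset.mul_sum]
      apply Finset.sum_congr rfl
      intro g _
      have hA1 : C (wX K h k t g) * Phi k (fun r c => Aent K q h k t b₀ b₀' r c +
          if b₀' = b₀' ∧ c = c₀ then (if b₀ = b₀ ∧ r = r₀ then 1 else 0) else 0)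
          (fun r => C (wR K t g r)) (fun c => C (wC K t g c)) =
          phi k (∏ r, (1 + lin (fun c => bent K q h k (2 * k + h) t g b₀ b₀' r c +
            if r = r₀ ∧ c = c₀ then C (mu K t g c₀ r₀) else 0))) := by
        apply wX_Phi ht
        intro r c
        have h1 := weight_identity ht g c r
        rw [mul_add, mul_add, mul_add]
        congr 1
        · unfold Aent bent
          rw [← mul_assoc, ← map_mul, h1, map_mul, map_mul]
          ring
        · by_cases hr : r = r₀
          · by_cases hc : c = c₀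
            · rw [if_pos ⟨rfl, hc⟩, if_pos ⟨rfl, hr⟩, if_pos ⟨hr, hc⟩, mul_one, hr, hc]
              unfold mu
              rw [← map_mul, ← map_mul]
              congr 1
              have h2 := wR_ne ht g (r₀ : ℕ)
              have h3 := wC_ne ht g (c₀ : ℕ)
              field_simp
            · rw [if_neg (fun hh => hc hh.2), if_neg (fun hh => hc hh.2)]
              ring
          · rw [if_neg (fun hh : r = r₀ ∧ c = c₀ => hr hh.1)]
            have h0 : (if b₀' = b₀' ∧ c = c₀ then (if b₀ = b₀ ∧ r = r₀ then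
                (1 : MvPolynomial (Idx q h k) K) else 0) else 0) = 0 := by
              split_ifs with h1 h2
              · exact absurd h2.2 hr
              · rfl
              · rfl
            rw [h0]
            ring
      have hA2 : C (wX K h k t g) * Phi k (Aent K q h k t b₀ b₀')
          (fun r => C (wR K t g r)) (fun c => C (wC K t g c)) =
          phi k (∏ r, (1 + lin (bent K q h k (2 * k + h) t g b₀ b₀' r))) := by
        apply wX_Phi ht
        intro r c
        have h1 := weight_identity ht g c r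
        unfold Aent bent
        rw [← mul_assoc, ← map_mul, h1, map_mul, map_mul]
        ring
      rw [hA1, hA2, phi_diff (k := k) (bent K q h k (2 * k + h) t g b₀ b₀') _ r₀ c₀
        (C (mu K t g c₀ r₀)) (fun r c => rfl), ← mul_assoc, ← map_mul, mu_spec ht]
    · intro b' _ hb'
      rw [hother b₀ b' (fun hh => hb' hh.2), sub_self]
    · intro hh; exact absurd (Finset.mem_univ _) hh
  · intro b _ hb
    rw [← Finset.sum_sub_distrib]
    apply Finset.sum_eq_zero
    intro b' _
    rw [hother b b' (fun hh => hb hh.1), sub_self]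
  · intro hh; exact absurd (Finset.mem_univ _) hh

end

lemma card_FR (q h k p : ℕ) : Fintype.card (FR q h (2 * k) (2 * k + h) k (k + h) p) =
    (q * (2 * k + h) + (h * (k + 1) + p) + ((2 * k + h) + (k + 1))) +
      (q * (2 * k) + h * (k + h + 1)) := by
  simp [FR, Rw, Fintype.card_sum, Fintype.card_prod]

lemma card_FC (q h k p : ℕ) : Fintype.card (FC q h (2 * k) (2 * k + h) k (k + h) p) =
    (q * (2 * k) + (h * (k + h + 1) + (p + (q * (2 * k + h) + h * (k + 1))))) +
      (2 * k + (k + h + 1)) := by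
  simp [FC, Gp', Fintype.card_sum, Fintype.card_prod]

/-- the main inequality -/
theorem main_ineq (K : Type*) [Field K] [IsAlgClosed K] [CharZero K] {q h k p : ℕ}
    (hk : 2 ≤ k) (N : ℕ)
    (hN : N = q * (4 * k + h) + h * (2 * k + h + 2) + (3 * k + h + 1) + p)
    (s : ℕ) (M : Finset ℕ) (g : ℕ → MvPolynomial (Fin N × Fin N) K) (hg : NSLP s M g)
    (hf : ∃ i < s, perN K N = g i) :
    (k - 1) ^ (q * (q * (h * k))) ≤ 2 ^ (3 * M.card) := by
  classical
  obtain ⟨zC, hzC⟩ := exists_zeta K (2 * k + h) (by omega)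
  obtain ⟨zU, hzU⟩ := exists_zeta K (k + 1) (by omega)
  obtain ⟨zm, hzm⟩ := exists_zeta K (2 * k) (by omega)
  obtain ⟨zV, hzV⟩ := exists_zeta K (k + h + 1) (by omega)
  obtain ⟨t, ht, hzero⟩ := exists_t (q := q) (h := h) (k := k) (C₀ := 2 * k + h) K hk rfl
  set FMA := FM K q h k p t zC zU zm zV (Aent K q h k t) with hFMA
  let er : Fin N ≃ FR q h (2 * k) (2 * k + h) k (k + h) p :=
    Fintype.equivOfCardEq (by rw [card_FR, Fintype.card_fin, hN]; ring)
  let ec : Fin N ≃ FC q h (2 * k) (2 * k + h) k (k + h) p :=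
    Fintype.equivOfCardEq (by rw [card_FC, Fintype.card_fin, hN]; ring)
  have hCmem : ∀ x : K, C x ∈ restrictTotalDegree (Idx q h k) K 1 := by
    intro x
    rw [mem_restrictTotalDegree, totalDegree_C]
    exact Nat.zero_le _
  have hdeg : ∀ i j, FMA i j ∈ restrictTotalDegree (Idx q h k) K 1 := by
    intro i j
    rw [hFMA]
    unfold FM
    apply fin_mem (W := (restrictTotalDegree (Idx q h k) K 1 : Set (MvPolynomial (Idx q h k) K)))
    · exact Submodule.zero_mem _
    · exact hCmem 1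
    · exact fun _ => hCmem _
    · exact fun _ => hCmem _
    · exact fun _ => hCmem _
    · exact fun _ => hCmem _
    · intro b b' r c
      have := ((zent_homog (K := K) (h := h) b b' r c).C_mul (t ^ ex c r 0)).totalDegree_le
      exact (mem_restrictTotalDegree _ _ _).mpr this
    · exact fun _ _ => hCmem _
    · exact fun _ _ => hCmem _
    · exact fun _ => hCmem _
  obtain ⟨W, hW0, hWgood, hWd⟩ := gradient_good' (good_W₀ (K := K) (ι := Idx q h k))
    (aeval (fun x : Fin N × Fin N => FMA (er x.1) (ec x.2)))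
    (fun v => by rw [aeval_X]; exact hdeg _ _) s M g hg (perN K N) hf
  have hyW : ∀ v, Yf K q h k (2 * k + h) t v ∈ W := by
    rintro ⟨b₀, b₀', r₀, c₀⟩
    have h1 := hWd (er.symm (posR b₀' c₀), ec.symm (posC b₀ r₀))
    rw [aeval_pderiv, Equiv.apply_symm_apply, Equiv.apply_symm_apply] at h1
    have h2 := per_add FMA (FM K q h k p t zC zU zm zV (fun b b' r c => Aent K q h k t b b' r c +
        if b' = b₀' ∧ c = c₀ then (if b = b₀ ∧ r = r₀ then 1 else 0) else 0))
      (posR b₀' c₀) (posC b₀ r₀) (fun i j => fin_add _ _ _ _ _ _ _ _ _ b₀ b₀' r₀ c₀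
        (fun _ _ _ _ => rfl) i j)
    rw [← h2] at h1
    have h3 := W.smul_mem (t ^ ex c₀ r₀ 0) h1
    rw [smul_eq_C_mul, hFMA, FM_diff ht (by omega) zC zU zm zV hzC hzU hzm hzV b₀ b₀' r₀ c₀,
      ← smul_eq_C_mul] at h3
    have hne := cst_ne_zero (K := K) q h (2 * k) (2 * k + h) k (k + h) p
    have h4 := W.smul_mem (cst K q h (2 * k) (2 * k + h) k (k + h) p (-1) (-1) (-1) (-1))⁻¹ h3
    rwa [smul_smul, inv_mul_cancel₀ hne, one_smul] at h4
  have hcardι : Fintype.card (Idx q h k) = q * (q * (h * k)) := by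
    simp [Idx, Fintype.card_prod]
  rw [← hcardι]
  exact degree_bound (fun v => Yf K q h k (2 * k + h) t v) (k - 1) (by omega)
    (fun v => Yf_homog t v) hzero (3 * M.card) W hW0 hWgood hyW

end Pool.Agent.H546R2.SM
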