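import Pool.Agent.H546R2.SL.A10
import Pool.Agent.H546R2.SL.A7

set_option autoImplicit false
set_option linter.unusedSectionVars false

open MvPolynomial Finset

namespace Pool.Agent.H546R2.SM

open Pool.Agent.H546R2.SL

section Eps

variable {γ : Type*} [DecidableEq γ] [Fintype γ] {R : Type*} [CommRing R]

/-- the sum of the variables in `A` -/
noncomputable def bl (R : Type*) [CommRing R] {γ : Type*} [DecidableEq γ] [Fintype γ]
    (A : Finset γ) : MvPolynomial γ R :=
  lin (fun c => if c ∈ A then (1 : R) else 0)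

lemma eps_bl_pow (A T : Finset γ) (p : ℕ) :
    eps T (bl R A ^ p) = if T.card = p ∧ T ⊆ A then (p.factorial : R) else 0 := by
  unfold bl
  rw [eps_lin_pow]
  by_cases h1 : T.card = p
  · rw [if_pos h1]
    by_cases h2 : T ⊆ A
    · rw [if_pos ⟨h1, h2⟩, Finset.prod_eq_one, mul_one]
      intro c hc
      rw [if_pos (h2 hc)]
    · rw [if_neg (fun h => h2 h.2)]
      obtain ⟨c, hc, hcA⟩ := Finset.not_subset.mp h2
      rw [Finset.prod_eq_zero hc (by rw [if_neg hcA]), mul_zero]
  · rw [if_neg h1, if_neg (fun h => h1 h.1)]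

lemma eps_bl_pow_mul (A S : Finset γ) (f : MvPolynomial γ R) :
    eps S (bl R A ^ A.card * f) =
      if A ⊆ S then (A.card.factorial : R) * eps (S \ A) f else 0 := by
  rw [eps_mul]
  simp_rw [eps_bl_pow]
  by_cases h : A ⊆ S
  · rw [if_pos h, Finset.sum_eq_single_of_mem A (Finset.mem_powerset.mpr h)]
    · rw [if_pos ⟨rfl, Finset.Subset.refl A⟩]
    · intro T _ hT
      rw [if_neg, zero_mul]
      rintro ⟨h1, h2⟩
      exact hT (Finset.eq_of_subset_of_card_le h2 h1.ge)
  · rw [if_neg h]
    apply Finset.sum_eq_zero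
    intro T hTS
    rw [if_neg, zero_mul]
    rintro ⟨h1, h2⟩
    have := Finset.eq_of_subset_of_card_le h2 h1.ge
    rw [this] at hTS
    exact h (Finset.mem_powerset.mp hTS)

/-- block selection, no floating column left -/
lemma sel_aux {β : Type*} (blk : β → Finset γ) (F : Finset γ) (w : ℕ) (hF : F.card = w)
    (hw : 0 < w) (κ : R) (f : MvPolynomial γ R) (s : Finset β)
    (hcard : ∀ b ∈ s, (blk b).card = w)
    (hdisj : ∀ b ∈ s, ∀ b' ∈ s, b ≠ b' → Disjoint (blk b) (blk b')) :
    ∀ S : Finset γ, Disjoint S F → (∀ b ∈ s, blk b ⊆ S) →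
      eps S (f * ∏ b ∈ s, (bl R (blk b) ^ w + C κ * bl R F ^ w)) =
        (w.factorial : R) ^ s.card * eps (S \ s.biUnion blk) f := by
  classical
  have hFne : F.Nonempty := Finset.card_pos.mp (by omega)
  induction s using Finset.induction_on with
  | empty =>
    intro S _ _
    simp
  | insert b₀ s hb₀ ih =>
    intro S hSF hS
    rw [Finset.prod_insert hb₀]
    have h1 : f * ((bl R (blk b₀) ^ w + C κ * bl R F ^ w) *
        ∏ b ∈ s, (bl R (blk b) ^ w + C κ * bl R F ^ w)) =
        bl R (blk b₀) ^ (blk b₀).card * (f * ∏ b ∈ s, (bl R (blk b) ^ w + C κ * bl R F ^ w)) +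
        C κ * (bl R F ^ F.card *
          (f * ∏ b ∈ s, (bl R (blk b) ^ w + C κ * bl R F ^ w))) := by
      rw [hcard b₀ (Finset.mem_insert_self _ _), hF]; ring
    rw [h1, eps_add, eps_C_mul, eps_bl_pow_mul, eps_bl_pow_mul,
      if_pos (hS b₀ (Finset.mem_insert_self _ _)), if_neg, mul_zero, add_zero,
      ih (fun b hb => hcard b (Finset.mem_insert_of_mem hb))
        (fun b hb b' hb' => hdisj b (Finset.mem_insert_of_mem hb) b' (Finset.mem_insert_of_mem hb')),
      hcard b₀ (Finset.mem_insert_self _ _), Finset.card_insert_of_notMem hb₀, pow_succ',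
      mul_assoc, Finset.biUnion_insert, sdiff_sdiff_left]
    · rfl
    · exact hSF.mono_left Finset.sdiff_subset
    · intro b hb
      rw [Finset.subset_sdiff]
      exact ⟨hS b (Finset.mem_insert_of_mem hb), hdisj b (Finset.mem_insert_of_mem hb) b₀
        (Finset.mem_insert_self _ _) (fun h => hb₀ (h ▸ hb))⟩
    · intro hsub
      obtain ⟨c, hc⟩ := hFne
      exact (Finset.disjoint_left.mp hSF (hsub hc)) hc

/-- block selection -/
lemma sel_eps {β : Type*} [DecidableEq β] (blk : β → Finset γ) (F : Finset γ) (w : ℕ)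
    (hF : F.card = w) (hw : 0 < w) (κ : R) (f : MvPolynomial γ R)
    (hf : ∀ S, F ⊆ S → eps S f = 0) (s : Finset β)
    (hcard : ∀ b ∈ s, (blk b).card = w)
    (hdisj : ∀ b ∈ s, ∀ b' ∈ s, b ≠ b' → Disjoint (blk b) (blk b'))
    (hdF : ∀ b ∈ s, Disjoint (blk b) F) :
    ∀ S : Finset γ, F ⊆ S → (∀ b ∈ s, blk b ⊆ S) →
      eps S (f * ∏ b ∈ s, (bl R (blk b) ^ w + C κ * bl R F ^ w)) =
        κ * (w.factorial : R) ^ s.card *
          ∑ b ∈ s, eps (S \ (F ∪ (s.erase b).biUnion blk)) f := by
  classical
  induction s using Finset.induction_on with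
  | empty =>
    intro S hSF _
    rw [Finset.prod_empty, mul_one, hf S hSF]
    simp
  | insert b₀ s hb₀ ih =>
    intro S hSF hS
    have hcard' : ∀ b ∈ s, (blk b).card = w := fun b hb => hcard b (Finset.mem_insert_of_mem hb)
    have hdisj' : ∀ b ∈ s, ∀ b' ∈ s, b ≠ b' → Disjoint (blk b) (blk b') :=
      fun b hb b' hb' => hdisj b (Finset.mem_insert_of_mem hb) b' (Finset.mem_insert_of_mem hb')
    have hdF' : ∀ b ∈ s, Disjoint (blk b) F := fun b hb => hdF b (Finset.mem_insert_of_mem hb)
    rw [Finset.prod_insert hb₀]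
    have h1 : f * ((bl R (blk b₀) ^ w + C κ * bl R F ^ w) *
        ∏ b ∈ s, (bl R (blk b) ^ w + C κ * bl R F ^ w)) =
        bl R (blk b₀) ^ (blk b₀).card * (f * ∏ b ∈ s, (bl R (blk b) ^ w + C κ * bl R F ^ w)) +
        C κ * (bl R F ^ F.card *
          (f * ∏ b ∈ s, (bl R (blk b) ^ w + C κ * bl R F ^ w))) := by
      rw [hcard b₀ (Finset.mem_insert_self _ _), hF]; ring
    rw [h1, eps_add, eps_C_mul, eps_bl_pow_mul, eps_bl_pow_mul,
      if_pos (hS b₀ (Finset.mem_insert_self _ _)), if_pos hSF,
      hcard b₀ (Finset.mem_insert_self _ _), hF,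
      ih hcard' hdisj' hdF' (S \ blk b₀)
        (Finset.subset_sdiff.mpr ⟨hSF, (hdF b₀ (Finset.mem_insert_self _ _)).symm⟩)
        (fun b hb => Finset.subset_sdiff.mpr ⟨hS b (Finset.mem_insert_of_mem hb),
          hdisj b (Finset.mem_insert_of_mem hb) b₀ (Finset.mem_insert_self _ _)
            (fun h => hb₀ (h ▸ hb))⟩),
      sel_aux blk F w hF hw κ f s hcard' hdisj' (S \ F) Finset.sdiff_disjoint
        (fun b hb => Finset.subset_sdiff.mpr ⟨hS b (Finset.mem_insert_of_mem hb), hdF' b hb⟩),
      Finset.sum_insert hb₀, Finset.erase_insert hb₀, Finset.card_insert_of_notMem hb₀]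
    have h2 : ∑ b ∈ s, eps ((S \ blk b₀) \ (F ∪ (s.erase b).biUnion blk)) f =
        ∑ b ∈ s, eps (S \ (F ∪ ((insert b₀ s).erase b).biUnion blk)) f := by
      apply Finset.sum_congr rfl
      intro b hb
      have hne : b ≠ b₀ := fun h => hb₀ (h ▸ hb)
      rw [Finset.erase_insert_of_ne hne.symm, Finset.biUnion_insert, sdiff_sdiff_left]
      congr 2
      ext c
      simp only [Finset.sup_eq_union, Finset.mem_union]
      tauto
    have h3 : (S \ F) \ s.biUnion blk = S \ (F ∪ s.biUnion blk) := by
      rw [sdiff_sdiff_left]; rfl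
    rw [h2, h3]
    ring

/-- restriction to a subset of the columns -/
lemma eps_emb {γ' : Type*} [DecidableEq γ'] [Fintype γ'] (j : γ' ↪ γ) {ρ : Type*}
    (I : Finset ρ) (s : ρ → R) (M : ρ → γ → R) :
    ∀ S : Finset γ', eps (S.map j) (∏ r ∈ I, (C (s r) + lin (M r))) =
      eps S (∏ r ∈ I, (C (s r) + lin (fun c => M r (j c)))) := by
  classical
  induction I using Finset.induction_on with
  | empty =>
    intro S
    rw [Finset.prod_empty, Finset.prod_empty, eps_one, eps_one]
    simp only [Finset.map_eq_empty]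
  | insert r I hr ih =>
    intro S
    rw [Finset.prod_insert hr, Finset.prod_insert hr, add_mul, add_mul, eps_add, eps_add,
      eps_C_mul, eps_C_mul, eps_lin_mul, eps_lin_mul, ih, Finset.sum_map]
    congr 1
    apply Finset.sum_congr rfl
    intro c _
    rw [← Finset.map_erase, ih]

lemma eps_emb_lin {γ' : Type*} [DecidableEq γ'] [Fintype γ'] (j : γ' ↪ γ) {ρ : Type*}
    (I : Finset ρ) (M : ρ → γ → R) (S : Finset γ') :
    eps (S.map j) (∏ r ∈ I, lin (M r)) = eps S (∏ r ∈ I, lin (fun c => M r (j c))) := by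
  have := eps_emb j I (fun _ => (0 : R)) M S
  simpa using this

/-- scaling of the columns -/
lemma eps_scale {ρ : Type*} (I : Finset ρ) (s : ρ → R) (M : ρ → γ → R) (l : γ → R) :
    ∀ S : Finset γ, eps S (∏ r ∈ I, (C (s r) + lin (fun c => l c * M r c))) =
      (∏ c ∈ S, l c) * eps S (∏ r ∈ I, (C (s r) + lin (M r))) := by
  classical
  induction I using Finset.induction_on with
  | empty =>
    intro S
    rw [Finset.prod_empty, Finset.prod_empty, eps_one]
    by_cases h : S = ∅
    · rw [if_pos h, h]; simp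
    · rw [if_neg h, mul_zero]
  | insert r I hr ih =>
    intro S
    rw [Finset.prod_insert hr, Finset.prod_insert hr, add_mul, add_mul, eps_add, eps_add,
      eps_C_mul, eps_C_mul, eps_lin_mul, eps_lin_mul, ih, mul_add, Finset.mul_sum]
    congr 1
    · ring
    · apply Finset.sum_congr rfl
      intro c hc
      rw [ih, ← Finset.mul_prod_erase S l hc]
      ring

/-- absorbing columns -/
lemma eps_absorb {ρ : Type*} (U : Finset γ) (s : ρ → R) (M : ρ → γ → R)
    (hM : ∀ r, ∀ c ∈ U, M r c = s r) (I : Finset ρ) :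
    ∀ (U' J : Finset γ), U' ⊆ U → Disjoint J U → U'.card + J.card = I.card →
      eps (U' ∪ J) (∏ r ∈ I, lin (M r)) =
        (U'.card.factorial : R) * eps J (∏ r ∈ I, (C (s r) + lin (M r))) := by
  classical
  induction I using Finset.induction_on with
  | empty =>
    intro U' J _ _ h
    rw [Finset.card_empty] at h
    have h1 : U' = ∅ := Finset.card_eq_zero.mp (by omega)
    have h2 : J = ∅ := Finset.card_eq_zero.mp (by omega)
    subst h1 h2
    rw [Finset.prod_empty, Finset.prod_empty]
    simp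
  | insert i I hi ih =>
    intro U' J hU' hJ h
    have hdisj : Disjoint U' J := (hJ.mono_right hU').symm
    rw [Finset.card_insert_of_notMem hi] at h
    rw [Finset.prod_insert hi, Finset.prod_insert hi, eps_lin_mul, Finset.sum_union hdisj]
    have h1 : ∑ u ∈ U', M i u * eps ((U' ∪ J).erase u) (∏ i ∈ I, lin (M i)) =
        (U'.card.factorial : R) * (s i * eps J (∏ i ∈ I, (C (s i) + lin (M i)))) := by
      rcases Finset.eq_empty_or_nonempty U' with h0 | h0
      · subst h0
        rw [Finset.card_empty] at h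
        rw [eps_affine_zero I s M J (by omega)]
        simp
      · have hpos : 0 < U'.card := Finset.card_pos.mpr h0
        have h2 : ∀ u ∈ U', M i u * eps ((U' ∪ J).erase u) (∏ i ∈ I, lin (M i)) =
            s i * (((U'.card - 1).factorial : R) * eps J (∏ i ∈ I, (C (s i) + lin (M i)))) := by
          intro u hu
          have h3 : (U' ∪ J).erase u = U'.erase u ∪ J := by
            rw [Finset.erase_union_distrib, Finset.erase_eq_of_notMem (a := u) (s := J)]
            exact fun hh => Finset.disjoint_left.mp hdisj hu hh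
          rw [h3, ih (U'.erase u) J ((Finset.erase_subset _ _).trans hU') hJ
            (by rw [Finset.card_erase_of_mem hu]; omega), Finset.card_erase_of_mem hu,
            hM i u (hU' hu)]
        rw [Finset.sum_congr rfl h2, Finset.sum_const, nsmul_eq_mul]
        have h3 : (U'.card.factorial : R) = (U'.card : R) * ((U'.card - 1).factorial : R) := by
          rw [← Nat.mul_factorial_pred hpos.ne']
          push_cast
          ring
        rw [h3]; ring
    have h2 : ∑ x ∈ J, M i x * eps ((U' ∪ J).erase x) (∏ i ∈ I, lin (M i)) =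
        (U'.card.factorial : R) * ∑ j ∈ J, M i j *
          eps (J.erase j) (∏ i ∈ I, (C (s i) + lin (M i))) := by
      rw [Finset.mul_sum]
      apply Finset.sum_congr rfl
      intro j hj
      have h3 : (U' ∪ J).erase j = U' ∪ J.erase j := by
        rw [Finset.erase_union_distrib, Finset.erase_eq_of_notMem (a := j) (s := U')]
        exact fun hh => Finset.disjoint_left.mp hdisj hh hj
      rw [h3, ih U' (J.erase j) hU' (hJ.mono_left (Finset.erase_subset _ _)) (by
        rw [Finset.card_erase_of_mem hj]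
        have : 0 < J.card := Finset.card_pos.mpr ⟨j, hj⟩
        omega)]
      ring
    rw [h1, h2, add_mul, eps_add, eps_C_mul, eps_lin_mul]
    ring

end Eps

/-- product with coefficients having vanishing middle elementary symmetric functions -/
lemma prod_zeta {A : Type*} [CommRing A] {w : ℕ} (hw : 0 < w) (ζ : Fin w → A) (κ : A)
    (hζ : ∀ t ≤ w, ∑ V : Finset (Fin w), (if V.card = t then ∏ c ∈ V, ζ c else 0) =
      if t = 0 then 1 else if t = w then κ else 0) (E Y : A) :
    ∏ i, (E + ζ i * Y) = E ^ w + κ * Y ^ w := by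
  classical
  have h1 : ∏ i, (E + ζ i * Y) = ∑ V : Finset (Fin w),
      (∏ c ∈ V, ζ c) * (Y ^ V.card * E ^ (w - V.card)) := by
    have h2 : ∏ i, (E + ζ i * Y) = ∏ i, (ζ i * Y + E) :=
      Finset.prod_congr rfl fun i _ => add_comm _ _
    rw [h2, Finset.prod_add, Finset.powerset_univ]
    apply Finset.sum_congr rfl
    intro V _
    rw [Finset.prod_mul_distrib, Finset.prod_const, Finset.prod_const,
      Finset.card_sdiff_of_subset (Finset.subset_univ V), Finset.card_univ, Fintype.card_fin]
    ring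
  have h3 : ∀ V : Finset (Fin w), (∏ c ∈ V, ζ c) * (Y ^ V.card * E ^ (w - V.card)) =
      ∑ t ∈ Finset.range (w + 1), (if V.card = t then ∏ c ∈ V, ζ c else 0) *
        (Y ^ t * E ^ (w - t)) := by
    intro V
    have hV : V.card ≤ w := by
      have := Finset.card_le_univ V
      rwa [Fintype.card_fin] at this
    rw [Finset.sum_eq_single_of_mem V.card (Finset.mem_range.mpr (by omega))]
    · rw [if_pos rfl]
    · intro t _ ht
      rw [if_neg ht.symm, zero_mul]
  rw [h1, Finset.sum_congr rfl (fun V _ => h3 V), Finset.sum_comm]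
  have h4 : ∀ t ∈ Finset.range (w + 1), ∑ V : Finset (Fin w),
      (if V.card = t then ∏ c ∈ V, ζ c else 0) * (Y ^ t * E ^ (w - t)) =
      (if t = 0 then 1 else if t = w then κ else 0) * (Y ^ t * E ^ (w - t)) := by
    intro t ht
    rw [← Finset.sum_mul, hζ t (by rw [Finset.mem_range] at ht; omega)]
  rw [Finset.sum_congr rfl h4, Finset.sum_range_succ, Finset.sum_eq_single_of_mem 0
    (Finset.mem_range.mpr hw)]
  · rw [if_pos rfl, if_neg hw.ne', if_pos rfl]
    simp
  · intro t ht ht0
    rw [Finset.mem_range] at ht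
    rw [if_neg ht0, if_neg (by omega), zero_mul]

end Pool.Agent.H546R2.SM
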