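import Pool.Agent.H546R2.SM.B1

set_option autoImplicit false
set_option linter.unusedSectionVars false

open MvPolynomial Finset

namespace Pool.Agent.H546R2.SM

open Pool.Agent.H546R2.SL

section Per

variable {R : Type*} [CommRing R]

/-- the permanent of a matrix with rows `ρ` and columns `γ` (zero if it is not square) -/
noncomputable def per {ρ γ : Type*} [Fintype ρ] [Fintype γ] [DecidableEq γ] (M : ρ → γ → R) : R :=
  eps Finset.univ (∏ r, lin (M r))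

variable {ρ γ ρ' γ' : Type*} [Fintype ρ] [DecidableEq ρ] [Fintype γ] [DecidableEq γ]
  [Fintype ρ'] [DecidableEq ρ'] [Fintype γ'] [DecidableEq γ']

lemma per_eq_sum (M : ρ → γ → R) (hcard : Fintype.card ρ = Fintype.card γ) :
    per M = ∑ σ : ρ ≃ γ, ∏ r, M r (σ r) := eps_prod_lin M hcard

lemma per_eq_zero (M : ρ → γ → R) (hcard : Fintype.card ρ ≠ Fintype.card γ) : per M = 0 := by
  unfold per
  apply eps_prod_zero_of_card
  rw [Finset.card_univ, Finset.card_univ]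
  exact hcard.symm

lemma per_transpose (M : ρ → γ → R) : per (fun c r => M r c) = per M := by
  by_cases h : Fintype.card ρ = Fintype.card γ
  · rw [per_eq_sum M h, per_eq_sum (fun c r => M r c) h.symm]
    apply Fintype.sum_equiv ⟨Equiv.symm, Equiv.symm, fun σ => Equiv.symm_symm σ,
      fun σ => Equiv.symm_symm σ⟩
    intro σ
    apply Fintype.prod_equiv σ
    intro c
    simp
  · rw [per_eq_zero M h, per_eq_zero (fun c r => M r c) (fun hh => h hh.symm)]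

lemma per_reindex_rows (e : ρ' ≃ ρ) (M : ρ → γ → R) : per (fun r => M (e r)) = per M := by
  unfold per
  congr 1
  apply Fintype.prod_equiv e
  intro r
  rfl

lemma per_reindex_cols (e : γ' ≃ γ) (M : ρ → γ → R) : per (fun r c => M r (e c)) = per M := by
  rw [← per_transpose, ← per_transpose M]
  exact per_reindex_rows e (fun c r => M r c)

end Per

section Sel

variable {R : Type*} [CommRing R]

/-- the selector matrix: two families of groups of columns -/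
def dsel {ρ Γ B₁ B₂ : Type*} [DecidableEq B₁] [DecidableEq B₂] {w₁ w₂ : ℕ}
    (ζ₁ : Fin w₁ → R) (ζ₂ : Fin w₂ → R) (M : ρ → (B₁ × Fin w₁) ⊕ ((B₂ × Fin w₂) ⊕ Γ) → R) :
    ρ ⊕ ((B₁ × Fin w₁) ⊕ (B₂ × Fin w₂)) →
      ((B₁ × Fin w₁) ⊕ ((B₂ × Fin w₂) ⊕ Γ)) ⊕ (Fin w₁ ⊕ Fin w₂) → R
  | .inl r, .inl c => M r c
  | .inl _, .inr _ => 0
  | .inr (.inl (b, _)), .inl (.inl (b', _)) => if b' = b then 1 else 0
  | .inr (.inl _), .inl (.inr _) => 0
  | .inr (.inl (_, i)), .inr (.inl _) => ζ₁ i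
  | .inr (.inl _), .inr (.inr _) => 0
  | .inr (.inr _), .inl (.inl _) => 0
  | .inr (.inr (b, _)), .inl (.inr (.inl (b', _))) => if b' = b then 1 else 0
  | .inr (.inr _), .inl (.inr (.inr _)) => 0
  | .inr (.inr _), .inr (.inl _) => 0
  | .inr (.inr (_, i)), .inr (.inr _) => ζ₂ i

/-- restriction to a pair of groups -/
def dres {ρ Γ B₁ B₂ : Type*} {w₁ w₂ : ℕ}
    (M : ρ → (B₁ × Fin w₁) ⊕ ((B₂ × Fin w₂) ⊕ Γ) → R) (b₁ : B₁) (b₂ : B₂) :
    ρ → Fin w₁ ⊕ (Fin w₂ ⊕ Γ) → R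
  | r, .inl j => M r (.inl (b₁, j))
  | r, .inr (.inl j) => M r (.inr (.inl (b₂, j)))
  | r, .inr (.inr c) => M r (.inr (.inr c))

variable {ρ Γ B₁ B₂ : Type*} [Fintype ρ] [DecidableEq ρ] [Fintype Γ] [DecidableEq Γ]
  [Fintype B₁] [DecidableEq B₁] [Fintype B₂] [DecidableEq B₂] {w₁ w₂ : ℕ}

/-- all columns -/
abbrev DCol (Γ B₁ B₂ : Type*) (w₁ w₂ : ℕ) :=
  ((B₁ × Fin w₁) ⊕ ((B₂ × Fin w₂) ⊕ Γ)) ⊕ (Fin w₁ ⊕ Fin w₂)

/-- the embedding of the columns of a pair of groups -/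
def demb (Γ : Type*) {B₁ B₂ : Type*} (w₁ w₂ : ℕ) (b₁ : B₁) (b₂ : B₂) :
    Fin w₁ ⊕ (Fin w₂ ⊕ Γ) ↪ DCol Γ B₁ B₂ w₁ w₂ :=
  ⟨fun x => match x with
    | .inl j => .inl (.inl (b₁, j))
    | .inr (.inl j) => .inl (.inr (.inl (b₂, j)))
    | .inr (.inr c) => .inl (.inr (.inr c)), by
    rintro (x | x | x) (y | y | y) h <;> simp_all⟩

def blk₁ (Γ : Type*) [Fintype Γ] [DecidableEq Γ] {B₁ : Type*} (B₂ : Type*) [Fintype B₁]
    [DecidableEq B₁] [Fintype B₂] [DecidableEq B₂] (w₁ w₂ : ℕ) (b : B₁) :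
    Finset (DCol Γ B₁ B₂ w₁ w₂) :=
  Finset.univ.map ⟨fun j : Fin w₁ => .inl (.inl (b, j)), fun _ _ h => by simpa using h⟩

def blk₂ (Γ : Type*) [Fintype Γ] [DecidableEq Γ] (B₁ : Type*) {B₂ : Type*} [Fintype B₁]
    [DecidableEq B₁] [Fintype B₂] [DecidableEq B₂] (w₁ w₂ : ℕ) (b : B₂) :
    Finset (DCol Γ B₁ B₂ w₁ w₂) :=
  Finset.univ.map ⟨fun j : Fin w₂ => .inl (.inr (.inl (b, j))), fun _ _ h => by simpa using h⟩

def flo₁ (Γ : Type*) [Fintype Γ] [DecidableEq Γ] (B₁ B₂ : Type*) [Fintype B₁]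
    [DecidableEq B₁] [Fintype B₂] [DecidableEq B₂] (w₁ w₂ : ℕ) : Finset (DCol Γ B₁ B₂ w₁ w₂) :=
  Finset.univ.map ⟨fun j : Fin w₁ => .inr (.inl j), fun _ _ h => by simpa using h⟩

def flo₂ (Γ : Type*) [Fintype Γ] [DecidableEq Γ] (B₁ B₂ : Type*) [Fintype B₁]
    [DecidableEq B₁] [Fintype B₂] [DecidableEq B₂] (w₁ w₂ : ℕ) : Finset (DCol Γ B₁ B₂ w₁ w₂) :=
  Finset.univ.map ⟨fun j : Fin w₂ => .inr (.inr j), fun _ _ h => by simpa using h⟩

lemma lin_add' {γ : Type*} [Fintype γ] [DecidableEq γ] (a b : γ → R) :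
    lin (fun c => a c + b c) = lin a + lin b := by
  unfold lin
  rw [← Finset.sum_add_distrib]
  apply Finset.sum_congr rfl
  intro c _
  rw [map_add]; ring

lemma lin_smul' {γ : Type*} [Fintype γ] [DecidableEq γ] (x : R) (b : γ → R) :
    lin (fun c => x * b c) = C x * lin b := by
  unfold lin
  rw [Finset.mul_sum]
  apply Finset.sum_congr rfl
  intro c _
  rw [map_mul]; ring

lemma lin_row₁ (ζ₁ : Fin w₁ → R) (ζ₂ : Fin w₂ → R)
    (M : ρ → (B₁ × Fin w₁) ⊕ ((B₂ × Fin w₂) ⊕ Γ) → R) (b : B₁) (i : Fin w₁) :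
    lin (dsel ζ₁ ζ₂ M (.inr (.inl (b, i)))) =
      bl R (blk₁ Γ B₂ w₁ w₂ b) + C (ζ₁ i) * bl R (flo₁ Γ B₁ B₂ w₁ w₂) := by
  unfold bl
  rw [← lin_smul', ← lin_add']
  congr 1
  funext c
  rcases c with ((⟨b', j⟩ | (⟨b', j⟩ | c)) | (j | j))
  · by_cases h : b' = b
    · simp [dsel, blk₁, flo₁, h]
    · have h' : ¬ (b = b') := fun hh => h hh.symm
      simp [dsel, blk₁, flo₁, h, h']
  · simp [dsel, blk₁, flo₁]
  · simp [dsel, blk₁, flo₁]
  · simp [dsel, blk₁, flo₁]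
  · simp [dsel, blk₁, flo₁]

lemma lin_row₂ (ζ₁ : Fin w₁ → R) (ζ₂ : Fin w₂ → R)
    (M : ρ → (B₁ × Fin w₁) ⊕ ((B₂ × Fin w₂) ⊕ Γ) → R) (b : B₂) (i : Fin w₂) :
    lin (dsel ζ₁ ζ₂ M (.inr (.inr (b, i)))) =
      bl R (blk₂ Γ B₁ w₁ w₂ b) + C (ζ₂ i) * bl R (flo₂ Γ B₁ B₂ w₁ w₂) := by
  unfold bl
  rw [← lin_smul', ← lin_add']
  congr 1
  funext c
  rcases c with ((⟨b', j⟩ | (⟨b', j⟩ | c)) | (j | j))
  · simp [dsel, blk₂, flo₂]
  · by_cases h : b' = b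
    · simp [dsel, blk₂, flo₂, h]
    · have h' : ¬ (b = b') := fun hh => h hh.symm
      simp [dsel, blk₂, flo₂, h, h']
  · simp [dsel, blk₂, flo₂]
  · simp [dsel, blk₂, flo₂]
  · simp [dsel, blk₂, flo₂]

/-- the remaining columns -/
lemma remaining (b₁ : B₁) (b₂ : B₂) :
    (Finset.univ \ (flo₁ Γ B₁ B₂ w₁ w₂ ∪ (Finset.univ.erase b₁).biUnion (blk₁ Γ B₂ w₁ w₂))) \
      (flo₂ Γ B₁ B₂ w₁ w₂ ∪ (Finset.univ.erase b₂).biUnion (blk₂ Γ B₁ w₁ w₂)) =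
    Finset.univ.map (demb Γ w₁ w₂ b₁ b₂) := by
  ext c
  rcases c with ((⟨b', j⟩ | (⟨b', j⟩ | c)) | (j | j))
  · by_cases h : b' = b₁
    · simp [blk₁, blk₂, flo₁, flo₂, demb, h]
    · have h' : ¬ (b₁ = b') := fun hh => h hh.symm
      simp [blk₁, blk₂, flo₁, flo₂, demb, h, h']
  · by_cases h : b' = b₂
    · simp [blk₁, blk₂, flo₁, flo₂, demb, h]
    · have h' : ¬ (b₂ = b') := fun hh => h hh.symm
      simp [blk₁, blk₂, flo₁, flo₂, demb, h, h']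
  · simp [blk₁, blk₂, flo₁, flo₂, demb]
  · simp [blk₁, blk₂, flo₁, flo₂, demb]
  · simp [blk₁, blk₂, flo₁, flo₂, demb]

/-- the double selector -/
theorem per_dsel (hw₁ : 0 < w₁) (hw₂ : 0 < w₂) (ζ₁ : Fin w₁ → R) (ζ₂ : Fin w₂ → R) (κ₁ κ₂ : R)
    (hζ₁ : ∀ t ≤ w₁, ∑ V : Finset (Fin w₁), (if V.card = t then ∏ c ∈ V, ζ₁ c else 0) =
      if t = 0 then 1 else if t = w₁ then κ₁ else 0)
    (hζ₂ : ∀ t ≤ w₂, ∑ V : Finset (Fin w₂), (if V.card = t then ∏ c ∈ V, ζ₂ c else 0) =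
      if t = 0 then 1 else if t = w₂ then κ₂ else 0)
    (M : ρ → (B₁ × Fin w₁) ⊕ ((B₂ × Fin w₂) ⊕ Γ) → R) :
    per (dsel ζ₁ ζ₂ M) = (κ₁ * (w₁.factorial : R) ^ Fintype.card B₁) *
      ((κ₂ * (w₂.factorial : R) ^ Fintype.card B₂) * ∑ b₁ : B₁, ∑ b₂ : B₂, per (dres M b₁ b₂)) := by
  classical
  have hC : ∀ {w : ℕ} (hw : 0 < w) (ζ : Fin w → R) (κ : R)
      (hζ : ∀ t ≤ w, ∑ V : Finset (Fin w), (if V.card = t then ∏ c ∈ V, ζ c else 0) =
        if t = 0 then 1 else if t = w then κ else 0)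
      (E Y : MvPolynomial (DCol Γ B₁ B₂ w₁ w₂) R),
      ∏ i, (E + C (ζ i) * Y) = E ^ w + C κ * Y ^ w := by
    intro w hw ζ κ hζ E Y
    apply prod_zeta hw (fun i => C (ζ i)) (C κ)
    intro t ht
    have h1 := congrArg (C (σ := DCol Γ B₁ B₂ w₁ w₂)) (hζ t ht)
    rw [map_sum] at h1
    have h2 : ∀ V : Finset (Fin w), (if V.card = t then ∏ c ∈ V, C (ζ c) else 0) =
        C (σ := DCol Γ B₁ B₂ w₁ w₂) (if V.card = t then ∏ c ∈ V, ζ c else 0) := by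
      intro V
      split_ifs
      · rw [map_prod]
      · rw [map_zero]
    simp_rw [h2]
    rw [h1]
    split_ifs <;> simp
  -- the rows
  have hrows : ∏ r, lin (dsel ζ₁ ζ₂ M r) =
      ((∏ r : ρ, lin (dsel ζ₁ ζ₂ M (.inl r))) *
        ∏ b ∈ (Finset.univ : Finset B₂), (bl R (blk₂ Γ B₁ w₁ w₂ b) ^ w₂ +
          C κ₂ * bl R (flo₂ Γ B₁ B₂ w₁ w₂) ^ w₂)) *
        ∏ b ∈ (Finset.univ : Finset B₁), (bl R (blk₁ Γ B₂ w₁ w₂ b) ^ w₁ +
          C κ₁ * bl R (flo₁ Γ B₁ B₂ w₁ w₂) ^ w₁) := by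
    rw [Fintype.prod_sum_type, Fintype.prod_sum_type, Fintype.prod_prod_type,
      Fintype.prod_prod_type, mul_assoc]
    congr 1
    rw [mul_comm]
    congr 1
    · apply Finset.prod_congr rfl
      intro b _
      rw [← hC hw₂ ζ₂ κ₂ hζ₂]
      apply Finset.prod_congr rfl
      intro i _
      exact lin_row₂ ζ₁ ζ₂ M b i
    · apply Finset.prod_congr rfl
      intro b _
      rw [← hC hw₁ ζ₁ κ₁ hζ₁]
      apply Finset.prod_congr rfl
      intro i _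
      exact lin_row₁ ζ₁ ζ₂ M b i
  have hne₁ : ∃ c, c ∈ flo₁ Γ B₁ B₂ w₁ w₂ := ⟨.inr (.inl ⟨0, hw₁⟩), by simp [flo₁]⟩
  have hne₂ : ∃ c, c ∈ flo₂ Γ B₁ B₂ w₁ w₂ := ⟨.inr (.inr ⟨0, hw₂⟩), by simp [flo₂]⟩
  -- the rows of `M` do not involve the floating columns
  have hf : ∀ (c : Fin w₁ ⊕ Fin w₂) (S : Finset (DCol Γ B₁ B₂ w₁ w₂)), Sum.inr c ∈ S →
      eps S (∏ r : ρ, lin (dsel ζ₁ ζ₂ M (.inl r))) = 0 := by
    intro c S hc
    apply eps_prod_zero_of_col Finset.univ (fun r : ρ => dsel ζ₁ ζ₂ M (.inl r)) (.inr c)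
    · intro r _
      rfl
    · exact hc
  unfold per
  rw [hrows]
  rw [sel_eps (blk₁ Γ B₂ w₁ w₂) (flo₁ Γ B₁ B₂ w₁ w₂) w₁ (by simp [flo₁]) hw₁ κ₁ _ ?_ Finset.univ
    (fun b _ => by simp [blk₁]) ?_ ?_ Finset.univ (Finset.subset_univ _)
    (fun b _ => Finset.subset_univ _)]
  · rw [Finset.card_univ]
    congr 1
    rw [Finset.mul_sum]
    apply Finset.sum_congr rfl
    intro b₁ _
    rw [sel_eps (blk₂ Γ B₁ w₁ w₂) (flo₂ Γ B₁ B₂ w₁ w₂) w₂ (by simp [flo₂]) hw₂ κ₂ _ ?_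
      Finset.univ (fun b _ => by simp [blk₂]) ?_ ?_ _ ?_ ?_]
    · rw [Finset.card_univ]
      congr 1
      apply Finset.sum_congr rfl
      intro b₂ _
      rw [remaining b₁ b₂, eps_emb_lin]
      congr 1
      apply Finset.prod_congr rfl
      intro r _
      congr 1
      funext c
      rcases c with (c | (c | c)) <;> rfl
    · intro S hS
      obtain ⟨c, hc⟩ := hne₂
      have hcS := hS hc
      simp only [flo₂, Finset.mem_map, Finset.mem_univ, true_and] at hc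
      obtain ⟨j, rfl⟩ := hc
      exact hf (.inr j) S hcS
    · intro b _ b' _ hbb
      rw [Finset.disjoint_left]
      rintro c hc hc'
      simp only [blk₂, Finset.mem_map, Finset.mem_univ, true_and] at hc hc'
      obtain ⟨j, rfl⟩ := hc
      obtain ⟨j', hj'⟩ := hc'
      simp at hj'
      exact hbb hj'.1.symm
    · intro b _
      rw [Finset.disjoint_left]
      rintro c hc hc'
      simp only [blk₂, flo₂, Finset.mem_map, Finset.mem_univ, true_and] at hc hc'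
      obtain ⟨j, rfl⟩ := hc
      obtain ⟨j', hj'⟩ := hc'
      simp at hj'
    · intro c hc
      simp only [flo₂, Finset.mem_map, Finset.mem_univ, true_and] at hc
      obtain ⟨j, rfl⟩ := hc
      simp [flo₁, blk₁]
    · intro b _ c hc
      simp only [blk₂, Finset.mem_map, Finset.mem_univ, true_and] at hc
      obtain ⟨j, rfl⟩ := hc
      simp [flo₁, blk₁]
  · intro S hS
    obtain ⟨c, hc⟩ := hne₁
    have hcS := hS hc
    simp only [flo₁, Finset.mem_map, Finset.mem_univ, true_and] at hc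
    obtain ⟨j, rfl⟩ := hc
    -- neither the rows of `M` nor the second family involve the floating column
    rw [eps_mul]
    apply Finset.sum_eq_zero
    intro T hT
    by_cases hjT : Sum.inr (Sum.inl j) ∈ T
    · have := hf (.inl j) T hjT
      rw [this, zero_mul]
    · have hmem : (Sum.inr (Sum.inl j) : DCol Γ B₁ B₂ w₁ w₂) ∈ S \ T :=
        Finset.mem_sdiff.mpr ⟨hcS, hjT⟩
      have h5 : ∏ b ∈ (Finset.univ : Finset B₂), (bl R (blk₂ Γ B₁ w₁ w₂ b) ^ w₂ +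
          C κ₂ * bl R (flo₂ Γ B₁ B₂ w₁ w₂) ^ w₂) =
          ∏ x : B₂ × Fin w₂, lin (dsel ζ₁ ζ₂ M (.inr (.inr x))) := by
        rw [Fintype.prod_prod_type]
        apply Finset.prod_congr rfl
        intro b _
        rw [← hC hw₂ ζ₂ κ₂ hζ₂]
        apply Finset.prod_congr rfl
        intro i _
        exact (lin_row₂ ζ₁ ζ₂ M b i).symm
      rw [h5, eps_prod_zero_of_col Finset.univ (fun x : B₂ × Fin w₂ => dsel ζ₁ ζ₂ M (.inr (.inr x)))
        (Sum.inr (Sum.inl j)) ?_ _ hmem, mul_zero]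
      intro x _
      rfl
  · intro b _ b' _ hbb
    rw [Finset.disjoint_left]
    rintro c hc hc'
    simp only [blk₁, Finset.mem_map, Finset.mem_univ, true_and] at hc hc'
    obtain ⟨j, rfl⟩ := hc
    obtain ⟨j', hj'⟩ := hc'
    simp at hj'
    exact hbb hj'.1.symm
  · intro b _
    rw [Finset.disjoint_left]
    rintro c hc hc'
    simp only [blk₁, flo₁, Finset.mem_map, Finset.mem_univ, true_and] at hc hc'
    obtain ⟨j, rfl⟩ := hc
    obtain ⟨j', hj'⟩ := hc'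
    simp at hj'

end Sel

end Pool.Agent.H546R2.SM
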