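import Pool.Agent.H546R2.SM.B2

set_option autoImplicit false
set_option linter.unusedSectionVars false

open MvPolynomial Finset

namespace Pool.Agent.H546R2.SM

open Pool.Agent.H546R2.SL

variable {R : Type*} [CommRing R] {m C₀ u v p k : ℕ}

/-- the core matrix -/
def core (u v p : ℕ) {m C₀ : ℕ} (a : Fin m → Fin C₀ → R) (ρ : Fin m → R) (χ : Fin C₀ → R)
    (x : R) : Fin m ⊕ (Fin (v + 1) ⊕ Fin p) → Fin C₀ ⊕ (Fin (u + 1) ⊕ Fin p) → R
  | .inl r, .inl c => a r c
  | .inl r, .inr (.inl j) => if (j : ℕ) < u then ρ r else 0
  | .inl _, .inr (.inr _) => 0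
  | .inr (.inl i), .inl c => if (i : ℕ) < v then χ c else 0
  | .inr (.inl i), .inr (.inl j) => if (i : ℕ) < v then 0 else if (j : ℕ) < u then 0 else x
  | .inr (.inl _), .inr (.inr _) => 0
  | .inr (.inr _), .inl _ => 0
  | .inr (.inr _), .inr (.inl _) => 0
  | .inr (.inr _), .inr (.inr _) => 1

/-- the functional of the core -/
noncomputable def Phi (k : ℕ) (a : Fin m → Fin C₀ → R) (ρ : Fin m → R) (χ : Fin C₀ → R) : R :=
  ∑ S ∈ (Finset.univ : Finset (Fin C₀)).powersetCard k,
    (∏ c ∈ Finset.univ \ S, χ c) * eps S (∏ r, (C (ρ r) + lin (a r)))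

def sP (C₀ u p : ℕ) : Finset (Fin C₀ ⊕ (Fin (u + 1) ⊕ Fin p)) :=
  Finset.univ.map ⟨fun j : Fin p => .inr (.inr j), fun _ _ h => by simpa using h⟩

def sU (C₀ u p : ℕ) : Finset (Fin C₀ ⊕ (Fin (u + 1) ⊕ Fin p)) :=
  Finset.univ.map ⟨fun j : Fin u => .inr (.inl (Fin.castSucc j)), fun _ _ h => by simpa using h⟩

def eC (C₀ u p : ℕ) : Fin C₀ ↪ Fin C₀ ⊕ (Fin (u + 1) ⊕ Fin p) :=
  ⟨fun c => .inl c, fun _ _ h => by simpa using h⟩

theorem per_core (a : Fin m → Fin C₀ → R) (ρ : Fin m → R) (χ : Fin C₀ → R) (x : R)
    (hm : m = k + u) (hC : C₀ = k + v) :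
    per (core u v p a ρ χ x) =
      (p.factorial : R) * (x * ((v.factorial : R) * (u.factorial : R)) * Phi k a ρ χ) := by
  classical
  set Z := ∏ r : Fin m, lin (core u v p a ρ χ x (.inl r)) with hZ
  set chi : Fin C₀ ⊕ (Fin (u + 1) ⊕ Fin p) → R := fun c => match c with
    | .inl c => χ c
    | .inr _ => 0 with hchi
  set ell : Fin C₀ ⊕ (Fin (u + 1) ⊕ Fin p) := .inr (.inl (Fin.last u)) with hell
  -- the rows
  have hP : ∏ i : Fin p, lin (core u v p a ρ χ x (.inr (.inr i))) = bl R (sP C₀ u p) ^ p := by
    rw [Finset.prod_congr rfl (g := fun _ => bl R (sP C₀ u p)), Finset.prod_const,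
      Finset.card_univ, Fintype.card_fin]
    intro i _
    unfold bl
    congr 1
    funext c
    rcases c with (c | (c | c)) <;> simp [core, sP]
  have hV : ∏ i : Fin (v + 1), lin (core u v p a ρ χ x (.inr (.inl i))) =
      lin chi ^ v * lin (core u v p a ρ χ x (.inr (.inl (Fin.last v)))) := by
    rw [Fin.prod_univ_castSucc]
    congr 1
    rw [Finset.prod_congr rfl (g := fun _ => lin chi), Finset.prod_const,
      Finset.card_univ, Fintype.card_fin]
    intro i _
    congr 1
    funext c
    have hi : (i : ℕ) < v := i.2
    rcases c with (c | (c | c)) <;> simp [core, hchi, hi]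
  have hrows : ∏ r, lin (core u v p a ρ χ x r) = bl R (sP C₀ u p) ^ (sP C₀ u p).card *
      (lin (core u v p a ρ χ x (.inr (.inl (Fin.last v)))) * (lin chi ^ v * Z)) := by
    rw [Fintype.prod_sum_type, Fintype.prod_sum_type, hP, hV]
    have : (sP C₀ u p).card = p := by simp [sP]
    rw [this]
    ring
  unfold per
  rw [hrows, eps_bl_pow_mul, if_pos (Finset.subset_univ _), eps_lin_mul]
  have hcardP : (sP C₀ u p).card = p := by simp [sP]
  rw [hcardP]
  congr 1
  have hmem : ell ∈ Finset.univ \ sP C₀ u p := by simp [sP, hell]
  rw [Finset.sum_eq_single_of_mem ell hmem (by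
    intro c _ hc
    have : core u v p a ρ χ x (.inr (.inl (Fin.last v))) c = 0 := by
      rcases c with (c | (c | c))
      · simp [core]
      · have hcu : (c : ℕ) < u := by
          by_contra hcon
          apply hc
          rw [hell]
          congr 2
          apply Fin.ext
          have := c.2
          simp only [Fin.val_last]
          omega
        simp [core, hcu]
      · simp [core]
    rw [this, zero_mul])]
  have hx : core u v p a ρ χ x (.inr (.inl (Fin.last v))) ell = x := by simp [core, hell]
  rw [hx, mul_assoc x]
  congr 1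
  have hset : (Finset.univ \ sP C₀ u p).erase ell =
      sU C₀ u p ∪ (Finset.univ : Finset (Fin C₀)).map (eC C₀ u p) := by
    ext c
    rcases c with (c | (c | c))
    · simp [sP, sU, eC, hell]
    · rw [hell]
      simp only [sP, sU, eC, Finset.mem_erase, Finset.mem_sdiff, Finset.mem_univ, true_and,
        Finset.mem_union, Finset.mem_map, Function.Embedding.coeFn_mk]
      constructor
      · rintro ⟨h1, _⟩
        left
        have hcu : (c : ℕ) < u := by
          by_contra hcon
          apply h1
          congr 2
          apply Fin.ext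
          have := c.2
          simp only [Fin.val_last]
          omega
        exact ⟨⟨c, hcu⟩, rfl⟩
      · rintro (⟨j, hj⟩ | ⟨j, hj⟩)
        · refine ⟨?_, by simp⟩
          rw [← hj]
          intro h
          have h2 := Sum.inl_injective (Sum.inr_injective h)
          have := congrArg Fin.val h2
          simp at this
          have := j.2
          omega
        · exact absurd hj (by simp)
    · simp [sP, sU, eC, hell]
  rw [hset, eps_mul]
  -- only subsets of the code columns contribute
  have hsum : ∑ T ∈ (sU C₀ u p ∪ (Finset.univ : Finset (Fin C₀)).map (eC C₀ u p)).powerset,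
      eps T (lin chi ^ v) * eps ((sU C₀ u p ∪ (Finset.univ : Finset (Fin C₀)).map (eC C₀ u p)) \ T) Z
      = ∑ T ∈ (Finset.univ : Finset (Fin C₀)).powersetCard v,
        ((v.factorial : R) * ∏ c ∈ T, χ c) *
          eps (sU C₀ u p ∪ (Finset.univ \ T).map (eC C₀ u p)) Z := by
    symm
    apply Finset.sum_of_injOn (fun T => T.map (eC C₀ u p))
    · intro T _ T' _ h
      exact Finset.map_injective _ h
    · intro T hT
      rw [Finset.mem_coe, Finset.mem_powersetCard] at hT
      rw [Finset.mem_coe, Finset.mem_powerset]
      exact (Finset.map_subset_map.mpr hT.1).trans Finset.subset_union_right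
    · intro T hT hT2
      rw [Finset.mem_powerset] at hT
      rw [eps_lin_pow]
      by_cases hcard : T.card = v
      · rw [if_pos hcard]
        -- some element outside the code columns
        have : ∃ c ∈ T, ∃ d, c = Sum.inr d := by
          by_contra hcon
          push Not at hcon
          apply hT2
          refine ⟨Finset.univ.filter (fun c => Sum.inl c ∈ T), ?_, ?_⟩
          · have h1 : (Finset.univ.filter (fun c => Sum.inl c ∈ T)).map (eC C₀ u p) = T := by
              ext c
              rcases c with c | c
              · simp [eC]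
              · simp only [eC, Finset.mem_map, Finset.mem_filter, Finset.mem_univ, true_and,
                  Function.Embedding.coeFn_mk]
                constructor
                · rintro ⟨j, _, hj⟩; exact absurd hj (by simp)
                · intro h; exact absurd rfl (hcon _ h c)
            rw [Finset.mem_coe, Finset.mem_powersetCard]
            refine ⟨Finset.subset_univ _, ?_⟩
            rw [← hcard]
            conv_rhs => rw [← h1]
            rw [Finset.card_map]
          · ext c
            rcases c with c | c
            · simp [eC]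
            · simp only [eC, Finset.mem_map, Finset.mem_filter, Finset.mem_univ, true_and,
                Function.Embedding.coeFn_mk]
              constructor
              · rintro ⟨j, _, hj⟩; exact absurd hj (by simp)
              · intro h; exact absurd rfl (hcon _ h c)
        obtain ⟨c, hc, d, rfl⟩ := this
        rw [Finset.prod_eq_zero hc (by rw [hchi]), mul_zero, zero_mul]
      · rw [if_neg hcard, zero_mul]
    · intro T hT
      rw [Finset.mem_powersetCard] at hT
      rw [eps_lin_pow, Finset.card_map, if_pos hT.2, Finset.prod_map]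
      congr 2
      ext c
      rcases c with c | c
      · simp [sU, eC]
      · simp only [sU, eC, Finset.mem_union, Finset.mem_sdiff, Finset.mem_map, Finset.mem_univ,
          true_and, Function.Embedding.coeFn_mk]
        constructor
        · rintro (h | ⟨j, _, hj⟩)
          · exact ⟨Or.inl h, fun ⟨j, _, hj⟩ => absurd hj (by simp)⟩
          · exact absurd hj (by simp)
        · rintro ⟨h | ⟨j, hj⟩, _⟩
          · exact Or.inl h
          · exact absurd hj (by simp)
  rw [hsum]
  unfold Phi
  rw [Finset.mul_sum]
  symm
  apply Finset.sum_nbij' (fun S => Finset.univ \ S) (fun T => Finset.univ \ T)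
  · intro S hS
    rw [Finset.mem_powersetCard] at hS ⊢
    refine ⟨Finset.subset_univ _, ?_⟩
    rw [Finset.card_sdiff_of_subset (Finset.subset_univ S), Finset.card_univ, Fintype.card_fin]
    omega
  · intro S hS
    rw [Finset.mem_powersetCard] at hS ⊢
    refine ⟨Finset.subset_univ _, ?_⟩
    rw [Finset.card_sdiff_of_subset (Finset.subset_univ S), Finset.card_univ, Fintype.card_fin]
    omega
  · intro S _
    exact Finset.sdiff_sdiff_eq_self (Finset.subset_univ S)
  · intro S _
    exact Finset.sdiff_sdiff_eq_self (Finset.subset_univ S)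
  · intro S hS
    rw [Finset.mem_powersetCard] at hS
    rw [Finset.sdiff_sdiff_eq_self (Finset.subset_univ S)]
    have habs := eps_absorb (sU C₀ u p) ρ (fun r : Fin m => core u v p a ρ χ x (.inl r)) (by
      intro r c hc
      simp only [sU, Finset.mem_map, Finset.mem_univ, true_and,
        Function.Embedding.coeFn_mk] at hc
      obtain ⟨j, rfl⟩ := hc
      simp [core]) Finset.univ (sU C₀ u p) (S.map (eC C₀ u p)) (Finset.Subset.refl _) (by
      rw [Finset.disjoint_left]
      intro c hc hc'
      simp only [sU, eC, Finset.mem_map, Finset.mem_univ, true_and,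
        Function.Embedding.coeFn_mk] at hc hc'
      obtain ⟨j, _, rfl⟩ := hc
      obtain ⟨j', hj'⟩ := hc'
      exact absurd hj' (by simp)) (by
      rw [Finset.card_map, hS.2, Finset.card_univ, Fintype.card_fin]
      simp only [sU, Finset.card_map, Finset.card_univ, Fintype.card_fin]
      omega)
    rw [hZ, habs, eps_emb]
    have hcU : (sU C₀ u p).card = u := by simp [sU]
    rw [hcU]
    have hrow : ∀ r : Fin m, (fun c => core u v p a ρ χ x (.inl r) ((eC C₀ u p) c)) = a r := by
      intro r; funext c; rfl
    simp_rw [hrow]
    ring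

end Pool.Agent.H546R2.SM
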