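import Pool.Agent.H546R2.SM.B3

set_option autoImplicit false
set_option linter.unusedSectionVars false

open MvPolynomial Finset

namespace Pool.Agent.H546R2.SM

open Pool.Agent.H546R2.SL

variable {R : Type*} [CommRing R] {q h m C₀ u v p k : ℕ}

/-- rows of the base matrix -/
abbrev Rw (q h m v p : ℕ) := (Fin q × Fin m) ⊕ ((Fin h × Fin (v + 1)) ⊕ Fin p)

/-- the added rows -/
abbrev Gp' (q h C₀ u : ℕ) := (Fin q × Fin C₀) ⊕ (Fin h × Fin (u + 1))

/-- the base matrix -/
def base (u v p : ℕ) {q h m C₀ : ℕ} (A : Fin q → Fin q → Fin m → Fin C₀ → R)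
    (ρ : Fin h → Fin m → R) (χ : Fin h → Fin C₀ → R) (x : Fin h → R) :
    Rw q h m v p → Rw q h C₀ u p → R
  | .inl (b, r), .inl (b', c) => A b b' r c
  | .inl (_, r), .inr (.inl (g, j)) => if (j : ℕ) < u then ρ g r else 0
  | .inl _, .inr (.inr _) => 0
  | .inr (.inl (g, i)), .inl (_, c) => if (i : ℕ) < v then χ g c else 0
  | .inr (.inl (g, i)), .inr (.inl (g', j)) =>
      if (i : ℕ) < v then 0 else if (j : ℕ) < u then 0 else if g = g' then x g else 0
  | .inr (.inl _), .inr (.inr _) => 0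
  | .inr (.inr _), .inl _ => 0
  | .inr (.inr _), .inr (.inl _) => 0
  | .inr (.inr _), .inr (.inr _) => 1

/-- transposition with regrouping -/
def tr {γ₁ Γ' : Type*} (N : Rw q h m v p ⊕ Γ' → γ₁ → R) :
    γ₁ → (Fin q × Fin m) ⊕ ((Fin h × Fin (v + 1)) ⊕ (Fin p ⊕ Γ')) → R
  | c, .inl x => N (.inl (.inl x)) c
  | c, .inr (.inl x) => N (.inl (.inr (.inl x))) c
  | c, .inr (.inr (.inl x)) => N (.inl (.inr (.inr x))) c
  | c, .inr (.inr (.inr x)) => N (.inr x) c

/-- restriction of the rows to a pair of groups -/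
def bres {γ : Type*} (M : Rw q h m v p → γ → R) (b : Fin q) (g : Fin h) :
    Fin m ⊕ (Fin (v + 1) ⊕ Fin p) → γ → R
  | .inl r, c => M (.inl (b, r)) c
  | .inr (.inl i), c => M (.inr (.inl (g, i))) c
  | .inr (.inr i), c => M (.inr (.inr i)) c

/-- the final matrix -/
def fin (u v p : ℕ) {q h m C₀ : ℕ} (zC : Fin C₀ → R) (zU : Fin (u + 1) → R) (zm : Fin m → R)
    (zV : Fin (v + 1) → R) (A : Fin q → Fin q → Fin m → Fin C₀ → R)
    (ρ : Fin h → Fin m → R) (χ : Fin h → Fin C₀ → R) (x : Fin h → R) :=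
  dsel zm zV (tr (dsel zC zU (base u v p A ρ χ x)))

/-- row index type of the final matrix -/
abbrev FR (q h m C₀ u v p : ℕ) := (Rw q h C₀ u p ⊕ (Fin C₀ ⊕ Fin (u + 1))) ⊕
  ((Fin q × Fin m) ⊕ (Fin h × Fin (v + 1)))

/-- column index type of the final matrix -/
abbrev FC (q h m C₀ u v p : ℕ) :=
  ((Fin q × Fin m) ⊕ ((Fin h × Fin (v + 1)) ⊕ (Fin p ⊕ Gp' q h C₀ u))) ⊕ (Fin m ⊕ Fin (v + 1))

/-- regrouping -/
def regr (m v p : ℕ) (Γ' : Type*) : (Fin m ⊕ (Fin (v + 1) ⊕ Fin p)) ⊕ Γ' ≃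
    Fin m ⊕ (Fin (v + 1) ⊕ (Fin p ⊕ Γ')) :=
  (Equiv.sumAssoc _ _ _).trans (Equiv.sumCongr (Equiv.refl _) (Equiv.sumAssoc _ _ _))

lemma regr_matrix (zC : Fin C₀ → R) (zU : Fin (u + 1) → R) (M : Rw q h m v p → Rw q h C₀ u p → R)
    (b : Fin q) (g : Fin h) :
    (fun (r : (Fin m ⊕ (Fin (v + 1) ⊕ Fin p)) ⊕ Gp' q h C₀ u) c =>
      dres (tr (dsel zC zU M)) b g c (regr m v p _ r)) = dsel zC zU (bres M b g) := by
  funext r c
  rcases r with ((r | (r | r)) | (r | r)) <;> rcases c with ((c | (c | c)) | (c | c)) <;> rfl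

lemma core_matrix (A : Fin q → Fin q → Fin m → Fin C₀ → R)
    (ρ : Fin h → Fin m → R) (χ : Fin h → Fin C₀ → R) (x : Fin h → R)
    (b b' : Fin q) (g g' : Fin h) :
    dres (bres (base u v p A ρ χ x) b g) b' g' =
      core u v p (A b b') (ρ g') (χ g) (if g = g' then x g else 0) := by
  funext r c
  rcases r with (r | (r | r)) <;> rcases c with (c | (c | c)) <;> rfl

/-- the constant of the final matrix -/
def cst (R : Type*) [CommRing R] (q h m C₀ u v p : ℕ) (κC κU κm κV : R) : R :=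
  (κm * (m.factorial : R) ^ q) * ((κV * ((v + 1).factorial : R) ^ h) *
    ((κC * (C₀.factorial : R) ^ q) * ((κU * ((u + 1).factorial : R) ^ h) *
      ((p.factorial : R) * ((v.factorial : R) * (u.factorial : R))))))

theorem per_fin (zC : Fin C₀ → R) (zU : Fin (u + 1) → R) (zm : Fin m → R)
    (zV : Fin (v + 1) → R) (κC κU κm κV : R)
    (hzC : ∀ t ≤ C₀, ∑ V : Finset (Fin C₀), (if V.card = t then ∏ c ∈ V, zC c else 0) =
      if t = 0 then 1 else if t = C₀ then κC else 0)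
    (hzU : ∀ t ≤ u + 1, ∑ V : Finset (Fin (u + 1)), (if V.card = t then ∏ c ∈ V, zU c else 0) =
      if t = 0 then 1 else if t = u + 1 then κU else 0)
    (hzm : ∀ t ≤ m, ∑ V : Finset (Fin m), (if V.card = t then ∏ c ∈ V, zm c else 0) =
      if t = 0 then 1 else if t = m then κm else 0)
    (hzV : ∀ t ≤ v + 1, ∑ V : Finset (Fin (v + 1)), (if V.card = t then ∏ c ∈ V, zV c else 0) =
      if t = 0 then 1 else if t = v + 1 then κV else 0)
    (hk : 0 < k) (hm : m = k + u) (hC : C₀ = k + v)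
    (A : Fin q → Fin q → Fin m → Fin C₀ → R)
    (ρ : Fin h → Fin m → R) (χ : Fin h → Fin C₀ → R) (x : Fin h → R) :
    per (fin u v p zC zU zm zV A ρ χ x) = cst R q h m C₀ u v p κC κU κm κV *
      ∑ b : Fin q, ∑ b' : Fin q, ∑ g : Fin h, x g * Phi k (A b b') (ρ g) (χ g) := by
  unfold fin
  rw [per_dsel (by omega) (by omega) zm zV κm κV hzm hzV, Fintype.card_fin, Fintype.card_fin]
  have h1 : ∀ (b : Fin q) (g : Fin h),
      per (dres (tr (dsel zC zU (base u v p A ρ χ x))) b g) =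
      (κC * (C₀.factorial : R) ^ q) * ((κU * ((u + 1).factorial : R) ^ h) *
        ((p.factorial : R) * ((v.factorial : R) * (u.factorial : R)) *
          ∑ b' : Fin q, x g * Phi k (A b b') (ρ g) (χ g))) := by
    intro b g
    rw [← per_transpose, ← per_reindex_rows (regr m v p (Gp' q h C₀ u)), regr_matrix,
      per_dsel (by omega) (by omega) zC zU κC κU hzC hzU, Fintype.card_fin, Fintype.card_fin]
    congr 2
    rw [Finset.mul_sum]
    apply Finset.sum_congr rfl
    intro b' _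
    rw [Finset.sum_eq_single g]
    · rw [core_matrix, per_core _ _ _ _ hm hC, if_pos rfl]
      ring
    · intro g' _ hg'
      rw [core_matrix, per_core _ _ _ _ hm hC, if_neg (fun hh => hg' hh.symm)]
      ring
    · intro hh; exact absurd (Finset.mem_univ g) hh
  simp_rw [h1]
  unfold cst
  have h2 : ∀ b : Fin q, ∑ g : Fin h, (κC * (C₀.factorial : R) ^ q) *
      ((κU * ((u + 1).factorial : R) ^ h) * ((p.factorial : R) *
        ((v.factorial : R) * (u.factorial : R)) *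
          ∑ b' : Fin q, x g * Phi k (A b b') (ρ g) (χ g))) =
      ((κC * (C₀.factorial : R) ^ q) * ((κU * ((u + 1).factorial : R) ^ h) *
        ((p.factorial : R) * ((v.factorial : R) * (u.factorial : R))))) *
        ∑ b' : Fin q, ∑ g : Fin h, x g * Phi k (A b b') (ρ g) (χ g) := by
    intro b
    rw [Finset.sum_comm (γ := Fin q), Finset.mul_sum]
    apply Finset.sum_congr rfl
    intro g _
    ring
  simp_rw [h2]
  rw [← Finset.mul_sum]
  ring

end Pool.Agent.H546R2.SM
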