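import Pool.Agent.H546R2.SM.B4
import Pool.Agent.H546R2.SL.A8

set_option autoImplicit false
set_option linter.unusedSectionVars false

open MvPolynomial Finset

namespace Pool.Agent.H546R2.SM

open Pool.Agent.H546R2.SL

variable {R : Type*} [CommRing R] {q h m C₀ u v p k : ℕ}

lemma Phi_scale (a b : Fin m → Fin C₀ → R) (ρ : Fin m → R) (χ : Fin C₀ → R) (τ : R)
    (hab : ∀ r c, τ * a r c = ρ r * (χ c * b r c)) :
    τ ^ k * Phi k a ρ χ = (∏ r, ρ r) * (∏ c, χ c) * phi k (∏ r, (1 + lin (b r))) := by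
  classical
  unfold Phi phi
  rw [Finset.mul_sum, Finset.mul_sum]
  apply Finset.sum_congr rfl
  intro S hS
  rw [Finset.mem_powersetCard] at hS
  have h1 : τ ^ k * eps S (∏ r, (C (ρ r) + lin (a r))) =
      eps S (∏ r, (C (ρ r) + lin (fun c => τ * a r c))) := by
    rw [eps_scale Finset.univ ρ a (fun _ => τ), Finset.prod_const, hS.2]
  have h2 : ∏ r, (C (ρ r) + lin (fun c => τ * a r c)) =
      C (∏ r, ρ r) * ∏ r, (C (1 : R) + lin (fun c => χ c * b r c)) := by
    rw [map_prod, ← Finset.prod_mul_distrib]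
    apply Finset.prod_congr rfl
    intro r _
    rw [mul_add, map_one, mul_one, ← lin_smul']
    congr 2
    funext c
    exact hab r c
  have h3 : ∏ r, (C (1 : R) + lin (b r)) = ∏ r, (1 + lin (b r)) := by
    simp only [map_one]
  rw [mul_left_comm, h1, h2, eps_C_mul, eps_scale Finset.univ (fun _ => 1) b χ, h3]
  have h4 : ∏ c, χ c = (∏ c ∈ Finset.univ \ S, χ c) * ∏ c ∈ S, χ c :=
    (Finset.prod_sdiff (Finset.subset_univ S)).symm
  rw [h4]
  ring

/-- adding `μ` to one entry -/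
lemma phi_diff (b b' : Fin m → Fin C₀ → R) (r₀ : Fin m) (c₀ : Fin C₀) (μ : R)
    (hb : ∀ r c, b' r c = b r c + if r = r₀ ∧ c = c₀ then μ else 0) :
    phi k (∏ r, (1 + lin (b' r))) - phi k (∏ r, (1 + lin (b r))) =
      μ * phi k (X c₀ * ∏ r ∈ Finset.univ.erase r₀, (1 + lin (b r))) := by
  classical
  have h1 : ∏ r, (1 + lin (b' r)) = (1 + lin (b' r₀)) *
      ∏ r ∈ Finset.univ.erase r₀, (1 + lin (b r)) := by
    rw [← Finset.mul_prod_erase Finset.univ _ (Finset.mem_univ r₀)]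
    congr 1
    apply Finset.prod_congr rfl
    intro r hr
    congr 2
    funext c
    rw [hb, if_neg (fun hh => (Finset.mem_erase.mp hr).1 hh.1), add_zero]
  have h2 : ∏ r, (1 + lin (b r)) = (1 + lin (b r₀)) *
      ∏ r ∈ Finset.univ.erase r₀, (1 + lin (b r)) :=
    (Finset.mul_prod_erase Finset.univ (fun r => (1 + lin (b r) : MvPolynomial (Fin C₀) R))
      (Finset.mem_univ r₀)).symm
  have h3 : lin (b' r₀) = lin (b r₀) + C μ * X c₀ := by
    rw [X_eq_lin, ← lin_smul', ← lin_add']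
    congr 1
    funext c
    rw [hb]
    by_cases hc : c = c₀
    · subst hc; simp
    · rw [if_neg (fun hh => hc hh.2), Pi.single_eq_of_ne hc, mul_zero]
  rw [h1, h2, h3]
  have h4 : (1 + (lin (b r₀) + C μ * X c₀)) * ∏ r ∈ Finset.univ.erase r₀, (1 + lin (b r)) =
      (1 + lin (b r₀)) * ∏ r ∈ Finset.univ.erase r₀, (1 + lin (b r)) +
      C μ * (X c₀ * ∏ r ∈ Finset.univ.erase r₀, (1 + lin (b r))) := by ring
  rw [h4, phi_add, phi_C_mul]
  ring

/-- adding `1` to one entry of a matrix -/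
lemma per_add {ρ γ : Type*} [Fintype ρ] [DecidableEq ρ] [Fintype γ] [DecidableEq γ]
    (M M' : ρ → γ → R) (r₀ : ρ) (c₀ : γ)
    (hM : ∀ r c, M' r c = M r c + if r = r₀ then (if c = c₀ then 1 else 0) else 0) :
    per M' - per M = eps Finset.univ (∏ r, lin (if r = r₀ then Pi.single c₀ 1 else M r)) := by
  classical
  have h1 : ∏ r, lin (M' r) = lin (M' r₀) * ∏ r ∈ Finset.univ.erase r₀, lin (M r) := by
    rw [← Finset.mul_prod_erase Finset.univ _ (Finset.mem_univ r₀)]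
    congr 1
    apply Finset.prod_congr rfl
    intro r hr
    congr 1
    funext c
    rw [hM, if_neg (Finset.mem_erase.mp hr).1, add_zero]
  have h2 : ∏ r, lin (M r) = lin (M r₀) * ∏ r ∈ Finset.univ.erase r₀, lin (M r) :=
    (Finset.mul_prod_erase Finset.univ (fun r => lin (M r)) (Finset.mem_univ r₀)).symm
  have h3 : ∏ r, lin (if r = r₀ then Pi.single c₀ 1 else M r) =
      lin (Pi.single c₀ 1) * ∏ r ∈ Finset.univ.erase r₀, lin (M r) := by
    rw [← Finset.mul_prod_erase Finset.univ _ (Finset.mem_univ r₀), if_pos rfl]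
    congr 1
    apply Finset.prod_congr rfl
    intro r hr
    rw [if_neg (Finset.mem_erase.mp hr).1]
  have h4 : lin (M' r₀) = lin (M r₀) + lin (Pi.single c₀ 1) := by
    rw [← lin_add']
    congr 1
    funext c
    rw [hM]
    by_cases hc : c = c₀
    · subst hc; simp
    · rw [if_pos rfl, if_neg hc, Pi.single_eq_of_ne hc]
  unfold per
  rw [h1, h2, h3, h4, add_mul, eps_add]
  ring

/-- position (row) of a variable entry -/
def posR (b' : Fin q) (c : Fin C₀) : FR q h m C₀ u v p := .inl (.inl (.inl (b', c)))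

/-- position (column) of a variable entry -/
def posC (b : Fin q) (r : Fin m) : FC q h m C₀ u v p := .inl (.inl (b, r))

lemma fin_add (zC : Fin C₀ → R) (zU : Fin (u + 1) → R) (zm : Fin m → R)
    (zV : Fin (v + 1) → R) (A A' : Fin q → Fin q → Fin m → Fin C₀ → R)
    (ρ : Fin h → Fin m → R) (χ : Fin h → Fin C₀ → R) (x : Fin h → R)
    (b₀ b₀' : Fin q) (r₀ : Fin m) (c₀ : Fin C₀)
    (hA : ∀ b b' r c, A' b b' r c = A b b' r c +
      if b' = b₀' ∧ c = c₀ then (if b = b₀ ∧ r = r₀ then 1 else 0) else 0)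
    (i : FR q h m C₀ u v p) (j : FC q h m C₀ u v p) :
    fin u v p zC zU zm zV A' ρ χ x i j = fin u v p zC zU zm zV A ρ χ x i j +
      if i = posR b₀' c₀ then (if j = posC b₀ r₀ then 1 else 0) else 0 := by
  rcases i with ((((⟨b', c⟩ | (i | i)) | (i | i))) | (i | i)) <;>
    rcases j with ((⟨b, r⟩ | (j | (j | (j | j)))) | (j | j)) <;>
    simp [fin, dsel, tr, base, posR, posC, hA]

lemma fin_mem (W : Set R) (zC : Fin C₀ → R) (zU : Fin (u + 1) → R) (zm : Fin m → R)
    (zV : Fin (v + 1) → R) (A : Fin q → Fin q → Fin m → Fin C₀ → R)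
    (ρ : Fin h → Fin m → R) (χ : Fin h → Fin C₀ → R) (x : Fin h → R)
    (h0 : 0 ∈ W) (h1 : 1 ∈ W) (hzC : ∀ i, zC i ∈ W) (hzU : ∀ i, zU i ∈ W) (hzm : ∀ i, zm i ∈ W)
    (hzV : ∀ i, zV i ∈ W) (hA : ∀ b b' r c, A b b' r c ∈ W) (hρ : ∀ g r, ρ g r ∈ W)
    (hχ : ∀ g c, χ g c ∈ W) (hx : ∀ g, x g ∈ W)
    (i : FR q h m C₀ u v p) (j : FC q h m C₀ u v p) :
    fin u v p zC zU zm zV A ρ χ x i j ∈ W := by
  rcases i with ((((⟨b', c⟩ | (⟨g, i⟩ | i)) | (i | i))) | (i | i)) <;>
    rcases j with ((⟨b, r⟩ | (⟨g', j⟩ | (j | (j | j)))) | (j | j)) <;>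
    simp only [fin, dsel, tr, base] <;> (try split_ifs) <;>
    first
    | exact h0 | exact h1 | exact hzC _ | exact hzU _ | exact hzm _ | exact hzV _
    | exact hA _ _ _ _ | exact hρ _ _ | exact hχ _ _ | exact hx _

end Pool.Agent.H546R2.SM
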