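import Pool.Agent.H546R2.SL.A4

set_option autoImplicit false
set_option linter.unusedSectionVars false

open MvPolynomial Finset

namespace Pool.Agent.H546R2.SM

open Pool.Agent.H546R2.SL

/-- if a polynomial family of systems of forms has only the trivial zero at `t = 0` then the same
holds for some `t ≠ 0` -/
theorem degenerate {K : Type*} [Field K] [IsAlgClosed K] {ι : Type*} [Fintype ι] [DecidableEq ι]
    {V : Type*} (Y : V → MvPolynomial ι (Polynomial K)) (e : ℕ) (he : 0 < e)
    (hY : ∀ (t : K) (v : V), (MvPolynomial.map (Polynomial.evalRingHom t) (Y v)).IsHomogeneous e)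
    (hz : ∀ x : ι → K,
      (∀ v, eval x (MvPolynomial.map (Polynomial.evalRingHom 0) (Y v)) = 0) → x = 0) :
    ∃ t : K, t ≠ 0 ∧ ∀ x : ι → K,
      (∀ v, eval x (MvPolynomial.map (Polynomial.evalRingHom t) (Y v)) = 0) → x = 0 := by
  classical
  obtain ⟨M, hM⟩ := exists_degree_bound
    (fun v => MvPolynomial.map (Polynomial.evalRingHom (0 : K)) (Y v)) hz
  obtain ⟨d, hd⟩ : ∃ d : ℕ, d = M + e := ⟨_, rfl⟩
  obtain ⟨MM, hmem⟩ : ∃ MM : Finset (ι →₀ ℕ), ∀ μ : ι →₀ ℕ, μ ∈ MM ↔ ∑ i, μ i = d := by
    refine ⟨Finset.finsuppAntidiag Finset.univ d, ?_⟩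
    intro μ
    rw [Finset.mem_finsuppAntidiag]
    simp
  have hrep : ∀ μ : MM, ∃ c : V →₀ MvPolynomial ι K, (∀ v, (c v).IsHomogeneous (d - e)) ∧
      monomial (μ : ι →₀ ℕ) (1 : K) = c.sum fun v a => a *
        MvPolynomial.map (Polynomial.evalRingHom (0 : K)) (Y v) := by
    intro μ
    have hhom : (monomial (μ : ι →₀ ℕ) (1 : K)).IsHomogeneous d := by
      apply isHomogeneous_monomial
      have := (hmem μ).mp μ.2
      rw [Finsupp.degree_eq_sum]
      exact this
    exact homog_repr _ e (hY 0) d (by omega) _ hhom (hM d (by omega) _ hhom)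
  choose c hc hcsum using hrep
  obtain ⟨F, hF⟩ : ∃ F : MM → MvPolynomial ι (Polynomial K), ∀ μ, F μ =
    (c μ).sum fun v a => MvPolynomial.map Polynomial.C a * Y v := ⟨_, fun _ => rfl⟩
  have hFmap : ∀ (t : K) (μ : MM), MvPolynomial.map (Polynomial.evalRingHom t) (F μ) =
      (c μ).sum fun v a => a * MvPolynomial.map (Polynomial.evalRingHom t) (Y v) := by
    intro t μ
    rw [hF]
    simp only [Finsupp.sum]
    rw [map_sum]
    apply Finset.sum_congr rfl
    intro v _
    rw [map_mul, MvPolynomial.map_map]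
    congr 1
    have : (Polynomial.evalRingHom t).comp Polynomial.C = RingHom.id K := by
      ext a; simp
    rw [this, MvPolynomial.map_id]
  obtain ⟨Am, hAm⟩ : ∃ Am : Matrix MM MM (Polynomial K),
      ∀ μ ν, Am μ ν = coeff (ν : ι →₀ ℕ) (F μ) := ⟨Matrix.of fun μ ν => coeff _ (F μ),
        fun _ _ => rfl⟩
  have hcoeff : ∀ (t : K) (μ ν : MM), ((Am.map (Polynomial.evalRingHom t)) μ ν) =
      coeff (ν : ι →₀ ℕ) (MvPolynomial.map (Polynomial.evalRingHom t) (F μ)) := by
    intro t μ ν
    rw [coeff_map, Matrix.map_apply, hAm]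
  have hdet : ∀ t : K, Am.det.eval t = (Am.map (Polynomial.evalRingHom t)).det := by
    intro t
    have := RingHom.map_det (Polynomial.evalRingHom t) Am
    simpa using this
  have hdet0 : Am.det.eval 0 = 1 := by
    rw [hdet]
    have : Am.map (Polynomial.evalRingHom (0 : K)) = 1 := by
      ext μ ν
      rw [hcoeff, hFmap, ← hcsum μ, coeff_monomial, Matrix.one_apply]
      by_cases h : μ = ν
      · rw [if_pos h, if_pos (by rw [h])]
      · rw [if_neg h, if_neg (fun hh => h (Subtype.ext hh))]
    rw [this, Matrix.det_one]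
  have hDne : Am.det ≠ 0 := by
    intro h
    rw [h] at hdet0
    simp at hdet0
  obtain ⟨t, ht⟩ : ∃ t : K, (Polynomial.X * Am.det).eval t ≠ 0 := by
    by_contra hcon
    push Not at hcon
    have h1 : Polynomial.X * Am.det = 0 := Polynomial.funext (by simpa using hcon)
    rcases mul_eq_zero.mp h1 with h2 | h2
    · exact Polynomial.X_ne_zero h2
    · exact hDne h2
  rw [Polynomial.eval_mul, Polynomial.eval_X] at ht
  refine ⟨t, left_ne_zero_of_mul ht, ?_⟩
  intro x hx
  have hdt : (Am.map (Polynomial.evalRingHom t)).det ≠ 0 := by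
    rw [← hdet]; exact right_ne_zero_of_mul ht
  set vx : MM → K := fun ν => ∏ i, x i ^ ((ν : ι →₀ ℕ) i) with hvx
  have hker : (Am.map (Polynomial.evalRingHom t)).mulVec vx = 0 := by
    funext μ
    rw [Matrix.mulVec, dotProduct]
    have h1 : eval x (MvPolynomial.map (Polynomial.evalRingHom t) (F μ)) = 0 := by
      rw [hFmap, Finsupp.sum, map_sum]
      apply Finset.sum_eq_zero
      intro v _
      rw [map_mul, hx v, mul_zero]
    have h2 : (MvPolynomial.map (Polynomial.evalRingHom t) (F μ)).IsHomogeneous d := by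
      rw [hFmap, Finsupp.sum]
      apply IsHomogeneous.sum
      intro v _
      have h3 := (hc μ v).mul (hY t v)
      have h4 : d - e + e = d := by omega
      rwa [h4] at h3
    rw [Pi.zero_apply, ← h1, eval_eq']
    have h5 : (MvPolynomial.map (Polynomial.evalRingHom t) (F μ)).support ⊆ MM := by
      intro ν hν
      rw [hmem]
      have := h2 (MvPolynomial.mem_support_iff.mp hν)
      rw [Finsupp.weight_apply, Finsupp.sum_fintype _ _ (fun _ => by simp)] at this
      simpa using this
    rw [Finset.sum_subset h5 (f := fun ν => coeff ν (MvPolynomial.map (Polynomial.evalRingHom t)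
      (F μ)) * ∏ i, x i ^ ν i)]
    · rw [← Finset.sum_coe_sort MM]
      apply Finset.sum_congr rfl
      intro ν _
      rw [hcoeff]
    · intro ν _ hν
      rw [MvPolynomial.notMem_support_iff.mp hν, zero_mul]
  have hv0 := Matrix.eq_zero_of_mulVec_eq_zero hdt hker
  funext i
  have h6 : Finsupp.single i d ∈ MM := by
    rw [hmem]
    simp
  have h7 := congrFun hv0 ⟨Finsupp.single i d, h6⟩
  rw [hvx] at h7
  simp only [Pi.zero_apply] at h7
  rw [Finset.prod_eq_single i] at h7
  · rw [Finsupp.single_eq_same] at h7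
    exact eq_zero_of_pow_eq_zero h7
  · intro j _ hj
    rw [Finsupp.single_eq_of_ne (by tauto), pow_zero]
  · intro h; exact absurd (Finset.mem_univ i) h

end Pool.Agent.H546R2.SM
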