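import Pool.Agent.H546R2.SM.B5
import Pool.Agent.H546R2.SM.B6
import Pool.Agent.H546R2.SL.A12

set_option autoImplicit false
set_option linter.unusedSectionVars false

open MvPolynomial Finset

namespace Pool.Agent.H546R2.SM

open Pool.Agent.H546R2.SL

section Diag

variable {R : Type*} [CommRing R] {m C₀ k : ℕ}

lemma eps_diag (j : Fin m ↪ Fin C₀) (w : Fin m → R) (w' : Fin C₀ → R) (hw : ∀ r, w' (j r) = w r)
    (I : Finset (Fin m)) : ∀ S : Finset (Fin C₀),
    eps S (∏ r ∈ I, (1 + lin (Pi.single (j r) (w r)))) =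
      if S ⊆ I.map j then ∏ c ∈ S, w' c else 0 := by
  classical
  induction I using Finset.induction_on with
  | empty =>
    intro S
    rw [Finset.prod_empty, eps_one, Finset.map_empty]
    by_cases h : S = ∅
    · rw [if_pos h, h, if_pos (Finset.Subset.refl _), Finset.prod_empty]
    · rw [if_neg h, if_neg (fun hh => h (Finset.subset_empty.mp hh))]
  | insert r I hr ih =>
    intro S
    rw [Finset.prod_insert hr, add_mul, one_mul, eps_add, eps_lin_mul, ih]
    have hjr : j r ∉ I.map j := by simpa using hr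
    by_cases hS : j r ∈ S
    · rw [if_neg (fun hh => hjr (hh hS)), zero_add,
        Finset.sum_eq_single_of_mem (j r) hS (by
          intro c _ hc
          rw [Pi.single_eq_of_ne hc, zero_mul]), Pi.single_eq_same, ih]
      have hiff : S.erase (j r) ⊆ I.map j ↔ S ⊆ (insert r I).map j := by
        rw [Finset.map_insert, Finset.subset_insert_iff]
      by_cases h2 : S.erase (j r) ⊆ I.map j
      · rw [if_pos h2, if_pos (hiff.mp h2), ← Finset.mul_prod_erase S w' hS, hw]
      · rw [if_neg h2, if_neg (fun hh => h2 (hiff.mpr hh)), mul_zero]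
    · have h0 : ∑ c ∈ S, (Pi.single (j r) (w r) : Fin C₀ → R) c *
          eps (S.erase c) (∏ r ∈ I, (1 + lin (Pi.single (j r) (w r)))) = 0 := by
        apply Finset.sum_eq_zero
        intro c hc
        have hne : c ≠ j r := by
          intro hh
          rw [hh] at hc
          exact hS hc
        rw [Pi.single_eq_of_ne hne, zero_mul]
      have hiff : S ⊆ I.map j ↔ S ⊆ (insert r I).map j := by
        rw [Finset.map_insert]
        constructor
        · intro hh; exact hh.trans (Finset.subset_insert _ _)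
        · intro hh c hc
          rcases Finset.mem_insert.mp (hh hc) with h3 | h3
          · exact absurd (h3 ▸ hc) hS
          · exact h3
      rw [h0, add_zero]
      by_cases h2 : S ⊆ I.map j
      · rw [if_pos h2, if_pos (hiff.mp h2)]
      · rw [if_neg h2, if_neg (fun hh => h2 (hiff.mpr hh))]

lemma phi_diag (hk : 0 < k) (j : Fin m ↪ Fin C₀) (w : Fin m → R) (r₀ : Fin m) :
    phi k (X (j r₀) * ∏ r ∈ Finset.univ.erase r₀, (1 + lin (Pi.single (j r) (w r)))) =
      es w (Finset.univ.erase r₀) (k - 1) := by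
  classical
  obtain ⟨w', hw⟩ : ∃ w' : Fin C₀ → R, ∀ r, w' (j r) = w r :=
    ⟨Function.extend j w 0, fun r => j.injective.extend_apply w 0 r⟩
  unfold phi es
  symm
  apply Finset.sum_of_injOn (fun J => insert (j r₀) (J.map j))
  · intro J hJ J' hJ' hh
    rw [Finset.mem_coe, Finset.mem_powersetCard] at hJ hJ'
    have h1 : ∀ J : Finset (Fin m), J ⊆ Finset.univ.erase r₀ → j r₀ ∉ J.map j := by
      intro J hJ hmem
      rw [Finset.mem_map'] at hmem
      exact Finset.notMem_erase r₀ _ (hJ hmem)
    have h2 := congrArg (fun S : Finset (Fin C₀) => S.erase (j r₀)) hh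
    simp only [Finset.erase_insert (h1 J hJ.1), Finset.erase_insert (h1 J' hJ'.1)] at h2
    exact Finset.map_injective _ h2
  · intro J hJ
    rw [Finset.mem_coe, Finset.mem_powersetCard] at hJ
    have h1 : j r₀ ∉ J.map j := by
      intro hmem
      rw [Finset.mem_map'] at hmem
      exact Finset.notMem_erase r₀ _ (hJ.1 hmem)
    rw [Finset.mem_coe, Finset.mem_powersetCard]
    refine ⟨Finset.subset_univ _, ?_⟩
    rw [Finset.card_insert_of_notMem h1, Finset.card_map, hJ.2]
    omega
  · intro S hS hS2
    rw [Finset.mem_powersetCard] at hS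
    rw [eps_X_mul]
    by_cases hr : j r₀ ∈ S
    · rw [if_pos hr, eps_diag j w w' hw, if_neg]
      intro hsub
      apply hS2
      refine ⟨(Finset.univ.erase r₀).filter (fun r => j r ∈ S), ?_, ?_⟩
      · have h1 : ((Finset.univ.erase r₀).filter (fun r => j r ∈ S)).map j = S.erase (j r₀) := by
          ext c
          rw [Finset.mem_map]
          constructor
          · rintro ⟨r, hrr, rfl⟩
            rw [Finset.mem_filter, Finset.mem_erase] at hrr
            rw [Finset.mem_erase]
            exact ⟨fun hh => hrr.1.1 (j.injective hh), hrr.2⟩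
          · intro hc
            obtain ⟨r, hrr, rfl⟩ := Finset.mem_map.mp (hsub hc)
            exact ⟨r, Finset.mem_filter.mpr ⟨hrr, (Finset.mem_erase.mp hc).2⟩, rfl⟩
        rw [Finset.mem_coe, Finset.mem_powersetCard]
        refine ⟨Finset.filter_subset _ _, ?_⟩
        have h2 := congrArg Finset.card h1
        rw [Finset.card_map, Finset.card_erase_of_mem hr, hS.2] at h2
        exact h2
      · have h1 : ((Finset.univ.erase r₀).filter (fun r => j r ∈ S)).map j = S.erase (j r₀) := by
          ext c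
          rw [Finset.mem_map]
          constructor
          · rintro ⟨r, hrr, rfl⟩
            rw [Finset.mem_filter, Finset.mem_erase] at hrr
            rw [Finset.mem_erase]
            exact ⟨fun hh => hrr.1.1 (j.injective hh), hrr.2⟩
          · intro hc
            obtain ⟨r, hrr, rfl⟩ := Finset.mem_map.mp (hsub hc)
            exact ⟨r, Finset.mem_filter.mpr ⟨hrr, (Finset.mem_erase.mp hc).2⟩, rfl⟩
        change insert (j r₀) (Finset.map j _) = S
        rw [h1, Finset.insert_erase hr]
    · rw [if_neg hr]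
  · intro J hJ
    rw [Finset.mem_powersetCard] at hJ
    have h1 : j r₀ ∉ J.map j := by
      intro hmem
      rw [Finset.mem_map'] at hmem
      exact Finset.notMem_erase r₀ _ (hJ.1 hmem)
    rw [eps_X_mul, if_pos (Finset.mem_insert_self _ _), Finset.erase_insert h1,
      eps_diag j w w' hw, if_pos (Finset.map_subset_map.mpr hJ.1), Finset.prod_map]
    apply Finset.prod_congr rfl
    intro r _
    rw [hw]

end Diag

section Ents

/-- exponents -/
def ex (c r g : ℕ) : ℕ := ((c : ℤ) - r - g).natAbs ^ 2

lemma ex_cast (c r g : ℕ) : ((ex c r g : ℕ) : ℤ) = ((c : ℤ) - r - g) ^ 2 := by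
  unfold ex
  push_cast
  rw [sq_abs]

lemma ex_eq_zero (c r g : ℕ) : ex c r g = 0 ↔ c = r + g := by
  unfold ex
  rw [pow_eq_zero_iff (by norm_num), Int.natAbs_eq_zero]
  omega

lemma ex_identity (c r g : ℕ) : g ^ 2 + ex c r 0 + 2 * g * r = 2 * g * c + ex c r g := by
  have h1 := ex_cast c r 0
  have h2 := ex_cast c r g
  have : ((g ^ 2 + ex c r 0 + 2 * g * r : ℕ) : ℤ) = ((2 * g * c + ex c r g : ℕ) : ℤ) := by
    push_cast
    rw [h1, h2]
    push_cast
    ring
  exact_mod_cast this

variable (S : Type*) [CommRing S] (q h k C₀ : ℕ)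

/-- index type of the variables -/
abbrev Idx (q h k : ℕ) := Fin q × Fin q × Fin h × Fin k

/-- a variable entry: on the diagonals `c - r < h` the entries form codewords -/
noncomputable def zent (b b' : Fin q) (r : Fin (2 * k)) (c : Fin C₀) :
    MvPolynomial (Idx q h k) S :=
  if hrc : (r : ℕ) ≤ c ∧ (c : ℕ) - r < h then
    ∑ l : Fin k, C (((r : ℕ) : S) ^ (l : ℕ)) * X (b, b', ⟨(c : ℕ) - r, hrc.2⟩, l) else 0

/-- scaled entries -/
noncomputable def bent (t : S) (g : ℕ) (b b' : Fin q) (r : Fin (2 * k)) (c : Fin C₀) :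
    MvPolynomial (Idx q h k) S :=
  C (t ^ ex c r g) * zent S q h k C₀ b b' r c

/-- the forms -/
noncomputable def Yf (t : S) (v : Fin q × Fin q × Fin (2 * k) × Fin C₀) :
    MvPolynomial (Idx q h k) S :=
  ∑ g : Fin h, C (t ^ ex v.2.2.2 v.2.2.1 g) *
    phi k (X v.2.2.2 * ∏ r ∈ Finset.univ.erase v.2.2.1,
      (1 + lin (bent S q h k C₀ t g v.1 v.2.1 r)))

variable {S q h k C₀}

lemma map_zent {S' : Type*} [CommRing S'] (f : S →+* S') (b b' : Fin q) (r : Fin (2 * k))
    (c : Fin C₀) : MvPolynomial.map f (zent S q h k C₀ b b' r c) = zent S' q h k C₀ b b' r c := by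
  unfold zent
  split_ifs
  · rw [map_sum]
    apply Finset.sum_congr rfl
    intro l _
    rw [map_mul, map_C, map_X, map_pow, map_natCast]
  · rw [map_zero]

lemma map_bent {S' : Type*} [CommRing S'] (f : S →+* S') (t : S) (g : ℕ) (b b' : Fin q)
    (r : Fin (2 * k)) (c : Fin C₀) :
    MvPolynomial.map f (bent S q h k C₀ t g b b' r c) = bent S' q h k C₀ (f t) g b b' r c := by
  unfold bent
  rw [map_mul, map_C, map_pow, map_zent]

lemma map_Yf {S' : Type*} [CommRing S'] (f : S →+* S') (t : S)
    (v : Fin q × Fin q × Fin (2 * k) × Fin C₀) :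
    MvPolynomial.map f (Yf S q h k C₀ t v) = Yf S' q h k C₀ (f t) v := by
  unfold Yf
  rw [map_sum]
  apply Finset.sum_congr rfl
  intro g _
  rw [map_mul, map_C, map_pow, map_phi_deriv (MvPolynomial.map f)]
  simp only [map_bent]

variable {K : Type*} [Field K]

lemma zent_homog (b b' : Fin q) (r : Fin (2 * k)) (c : Fin C₀) :
    (zent K q h k C₀ b b' r c).IsHomogeneous 1 := by
  unfold zent
  split_ifs
  · apply IsHomogeneous.sum
    intro l _
    exact isHomogeneous_C_mul_X _ _
  · exact isHomogeneous_zero _ _ _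

lemma bent_homog (t : K) (g : ℕ) (b b' : Fin q) (r : Fin (2 * k)) (c : Fin C₀) :
    (bent K q h k C₀ t g b b' r c).IsHomogeneous 1 :=
  (zent_homog b b' r c).C_mul _

lemma Yf_homog (t : K) (v : Fin q × Fin q × Fin (2 * k) × Fin C₀) :
    (Yf K q h k C₀ t v).IsHomogeneous (k - 1) := by
  unfold Yf
  apply IsHomogeneous.sum
  intro g _
  exact (phi_deriv_homog _ (fun r c => bent_homog t g _ _ r c) _ _).C_mul _

/-- the forms at `t = 0` -/
lemma eval_Yf_zero (hk : 0 < k) (hC : C₀ = 2 * k + h) (ξ : Idx q h k → K) (b b' : Fin q)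
    (a : Fin h) (r₀ : Fin (2 * k)) :
    eval ξ (Yf K q h k C₀ 0 (b, b', r₀, ⟨r₀ + a, by omega⟩)) =
      es (fun r : Fin (2 * k) => avec (fun l => ξ (b, b', a, l)) r) (Finset.univ.erase r₀)
        (k - 1) := by
  classical
  unfold Yf
  rw [Finset.sum_eq_single a]
  · have h1 : ex (r₀ + a) r₀ a = 0 := (ex_eq_zero _ _ _).mpr rfl
    simp only [h1, pow_zero, map_one, one_mul]
    rw [map_phi_deriv (eval ξ)]
    set j : Fin (2 * k) ↪ Fin C₀ := ⟨fun r => ⟨r + a, by omega⟩, fun r r' hh => by
      have := congrArg Fin.val hh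
      simp only at this
      apply Fin.ext; omega⟩ with hj
    have h2 := phi_diag hk j (fun r : Fin (2 * k) => avec (fun l => ξ (b, b', a, l)) r) r₀
    rw [← h2]
    have h3 : ∀ r : Fin (2 * k), (fun c => eval ξ (bent K q h k C₀ 0 a b b' r c)) =
        Pi.single (j r) (avec (fun l => ξ (b, b', a, l)) r) := by
      intro r
      funext c
      unfold bent
      rw [map_mul, eval_C]
      by_cases hc : (c : ℕ) = r + a
      · have hcj : c = j r := Fin.ext hc
        rw [(ex_eq_zero _ _ _).mpr hc, pow_zero, one_mul, hcj, Pi.single_eq_same]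
        unfold zent
        have hcond : (r : ℕ) ≤ (j r : Fin C₀) ∧ ((j r : Fin C₀) : ℕ) - r < h := by
          rw [hj]
          simp only [Function.Embedding.coeFn_mk]
          have := a.2
          constructor <;> omega
        rw [dif_pos hcond, map_sum]
        unfold avec
        apply Finset.sum_congr rfl
        intro l _
        rw [map_mul, eval_C, eval_X]
        congr 2
        have : (⟨((j r : Fin C₀) : ℕ) - r, hcond.2⟩ : Fin h) = a := by
          apply Fin.ext
          simp [hj]
        rw [this]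
      · rw [zero_pow (fun hh => hc ((ex_eq_zero _ _ _).mp hh)), zero_mul,
          Pi.single_eq_of_ne (fun hh => hc (by rw [hh, hj]; rfl))]
    simp only [h3]
    rfl
  · intro g _ hg
    have h1 : ex (r₀ + a) r₀ g ≠ 0 := by
      intro hh
      rw [ex_eq_zero] at hh
      apply hg
      apply Fin.ext
      omega
    simp only
    rw [zero_pow h1, map_zero, zero_mul]
  · intro hh; exact absurd (Finset.mem_univ a) hh

/-- only the trivial zero at `t = 0` -/
lemma zero_of_Yf [CharZero K] (hk : 2 ≤ k) (hC : C₀ = 2 * k + h) (ξ : Idx q h k → K)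
    (hξ : ∀ v, eval ξ (Yf K q h k C₀ 0 v) = 0) : ξ = 0 := by
  classical
  have key : ∀ (b b' : Fin q) (a : Fin h), (fun l : Fin k => ξ (b, b', a, l)) = 0 := by
    intro b b' a
    set z : Fin k → K := fun l => ξ (b, b', a, l) with hz
    set S : Finset (Fin (2 * k)) := Finset.univ.filter fun j => ¬ (avec z j = 0) with hS
    have hSm : ∀ j, j ∈ S ↔ avec z j ≠ 0 := by intro j; simp [hS]
    have h1 : ∀ j : Fin (2 * k), es (fun j : Fin (2 * k) => avec z j)
        (Finset.univ.erase j) (k - 1) = 0 := by
      intro j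
      rw [← eval_Yf_zero (by omega) hC ξ b b' a j]
      exact hξ _
    have hcard := support_small (by omega) (fun j : Fin (2 * k) => avec z j) h1 S hSm
    apply vandermonde_zero z ((Finset.univ \ S).map Fin.valEmbedding)
    · rw [Finset.card_map, Finset.card_sdiff_of_subset (Finset.subset_univ S), Finset.card_univ,
        Fintype.card_fin]
      omega
    · intro t ht
      rw [Finset.mem_map] at ht
      obtain ⟨j, hj, rfl⟩ := ht
      rw [Finset.mem_sdiff, hSm] at hj
      push Not at hj
      exact hj.2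
  funext ⟨b, b', a, l⟩
  exact congrFun (key b b' a) l

/-- some nonzero `t` works -/
theorem exists_t (K : Type*) [Field K] [IsAlgClosed K] [CharZero K] (hk : 2 ≤ k)
    (hC : C₀ = 2 * k + h) :
    ∃ t : K, t ≠ 0 ∧ ∀ ξ : Idx q h k → K, (∀ v, eval ξ (Yf K q h k C₀ t v) = 0) → ξ = 0 := by
  obtain ⟨t, ht, h1⟩ := degenerate (K := K)
    (fun v => Yf (Polynomial K) q h k C₀ Polynomial.X v) (k - 1) (by omega)
    (fun t v => by
      rw [map_Yf, Polynomial.coe_evalRingHom, Polynomial.eval_X]
      exact Yf_homog t v)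
    (fun x hx => by
      apply zero_of_Yf hk hC x
      intro v
      have := hx v
      rwa [map_Yf, Polynomial.coe_evalRingHom, Polynomial.eval_X] at this)
  refine ⟨t, ht, fun ξ hξ => h1 ξ fun v => ?_⟩
  rw [map_Yf, Polynomial.coe_evalRingHom, Polynomial.eval_X]
  exact hξ v

end Ents

end Pool.Agent.H546R2.SM
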