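import Pool.Agent.H546R2.SM.B8
import Pool.Agent.H546R2.SL.A14

set_option autoImplicit false
set_option linter.unusedSectionVars false

open MvPolynomial Finset

namespace Pool.Agent.H546R2.SM

open Pool.Agent.H546R2.SL (perN NSLP map_perN)

/-- lower bound for the number of product lines -/
theorem nlogn (K : Type*) [Field K] [CharZero K] (N : ℕ) (s : ℕ) (M : Finset ℕ)
    (g : ℕ → MvPolynomial (Fin N × Fin N) K) (hg : NSLP s M g) (hf : ∃ i < s, perN K N = g i) :
    N ^ 2 * (Nat.log 2 N - 11) ≤ 112 * M.card := by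
  by_cases hL : Nat.log 2 N ≤ 11
  · rw [Nat.sub_eq_zero_of_le hL, mul_zero]
    exact Nat.zero_le _
  push Not at hL
  have hN0 : N ≠ 0 := by
    rintro rfl
    simp at hL
  set L := Nat.log 2 N with hLdef
  set a := L / 2 - 5 with ha
  set x := 2 ^ a with hx
  have hNL : 2 ^ L ≤ N := Nat.pow_log_le_self 2 hN0
  have hxN : 1024 * (x * x) ≤ N := by
    calc 1024 * (x * x) = 2 ^ (a + a + 10) := by
          rw [hx, pow_add, pow_add]; norm_num; ring
      _ ≤ 2 ^ L := Nat.pow_le_pow_right (by norm_num) (by omega)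
      _ ≤ N := hNL
  have hx2 : 2 ≤ x := by
    have : 1 ≤ a := by omega
    calc 2 = 2 ^ 1 := by norm_num
      _ ≤ 2 ^ a := Nat.pow_le_pow_right (by norm_num) this
  set k := x + 1 with hk
  have hkk : 24 * (k * k) + 23 * k + 1 ≤ 72 * (x * x) := by
    have h1 : 2 * x ≤ x * x := Nat.mul_le_mul_right x hx2
    have h2 : k * k = x * x + 2 * x + 1 := by rw [hk]; ring
    rw [h2, hk]
    nlinarith
  set G := 24 * (k * k) + 15 * k + 1 with hG
  set q := (N - G) / (8 * k) with hq
  have hkpos : 0 < 8 * k := by omega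
  have hq1 : q * (8 * k) ≤ N - G := Nat.div_mul_le_self _ _
  have hq2 : N - G < q * (8 * k) + 8 * k := Nat.lt_div_mul_add hkpos
  have hGN : G ≤ N := by omega
  have hqk : q * (8 * k) = 8 * (q * k) := by ring
  have hNform : N = q * (4 * k + 4 * k) + 4 * k * (2 * k + 4 * k + 2) + (3 * k + 4 * k + 1) +
      (N - G - q * (8 * k)) := by
    have h1 : q * (4 * k + 4 * k) = q * (8 * k) := by ring
    have h2 : 4 * k * (2 * k + 4 * k + 2) = 24 * (k * k) + 8 * k := by ring
    rw [h1, h2]
    omega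
  have hg' := hg.map (algebraMap K (AlgebraicClosure K))
  have hf' : ∃ i < s, perN (AlgebraicClosure K) N =
      (fun i => MvPolynomial.map (algebraMap K (AlgebraicClosure K)) (g i)) i := by
    obtain ⟨i, hi, hfi⟩ := hf
    refine ⟨i, hi, ?_⟩
    beta_reduce
    rw [← hfi, map_perN]
  have hmain := main_ineq (AlgebraicClosure K) (q := q) (h := 4 * k) (k := k)
    (p := N - G - q * (8 * k)) (by omega) N hNform s M _ hg' hf'
  rw [show k - 1 = 2 ^ a by rw [← hx]; omega, ← pow_mul] at hmain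
  have h3 := (Nat.pow_le_pow_iff_right (by norm_num : 1 < 2)).mp hmain
  have h4 : q * (q * (4 * k * k)) = 4 * ((q * k) * (q * k)) := by ring
  rw [h4] at h3
  have h5 : 952 * N ≤ 8192 * (q * k) := by omega
  have h6 : (952 * N) * (952 * N) ≤ (8192 * (q * k)) * (8192 * (q * k)) := Nat.mul_le_mul h5 h5
  have h7 : L - 11 ≤ 2 * a := by omega
  set Q := (q * k) * (q * k) with hQ
  have h8 : 906304 * (N ^ 2) ≤ 67108864 * Q := by
    rw [hQ]; nlinarith
  have h9 : a * (906304 * (N ^ 2)) ≤ a * (67108864 * Q) := Nat.mul_le_mul_left a h8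
  have h10 : a * (4 * Q) = 4 * (a * Q) := by ring
  have h11 : a * (67108864 * Q) = 67108864 * (a * Q) := by ring
  have h12 : a * (906304 * (N ^ 2)) = 906304 * (a * N ^ 2) := by ring
  rw [h10] at h3
  rw [h11, h12] at h9
  have h13 : N ^ 2 * (L - 11) ≤ 2 * (a * N ^ 2) := by
    calc N ^ 2 * (L - 11) ≤ N ^ 2 * (2 * a) := Nat.mul_le_mul_left _ h7
      _ = 2 * (a * N ^ 2) := by ring
  omega

end Pool.Agent.H546R2.SM
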